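import Mathlib

/-!
Second differences of crossing probabilities: statements of the jobs in real analysis.
-/

set_option autoImplicit false

namespace Pool.Agent.Y197.SD

/-- A Lipschitz function with bounded mixed second differences is `C^{1,1}`. -/
def S_CAL : Prop := ∀ (a b C D : ℝ) (g : ℝ → ℝ), a < b → 0 ≤ C → 0 ≤ D →
  (∀ x ∈ Set.Ioo a b, ∀ y ∈ Set.Ioo a b, |g x - g y| ≤ D * |x - y|) →
  (∀ x s t : ℝ, 0 ≤ s → 0 ≤ t → a < x → x + s + t < b →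
    |g (x + s + t) - g (x + s) - g (x + t) + g x| ≤ C * (s * t)) →
  ∃ g' : ℝ → ℝ, (∀ x ∈ Set.Ioo a b, HasDerivAt g (g' x) x) ∧
    ∀ x ∈ Set.Ioo a b, ∀ y ∈ Set.Ioo a b, |g' x - g' y| ≤ C * |x - y|

/-- From second differences on the lattice to mixed second differences of the limits. `H w` is the
value at the integer `w`, for the mesh `1 / n`. -/
def S_DLIM : Prop := ∀ (a b C D : ℝ) (H : ℕ → ℕ → ℝ) (nk : ℕ → ℕ) (g : ℝ → ℝ),
  0 < a → a < b → 0 ≤ C → 0 ≤ D → Filter.Tendsto nk Filter.atTop Filter.atTop →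
  (∀ᶠ n : ℕ in Filter.atTop, ∀ w : ℕ, a * n ≤ w + 1 → (w:ℝ) ≤ b * n + 1 →
    |H n (w + 1) - H n w| ≤ D / n ∧ |H n (w + 2) - 2 * H n (w + 1) + H n w| ≤ C / (n:ℝ) ^ 2) →
  (∀ x ∈ Set.Ioo a b, Filter.Tendsto (fun k => H (nk k) ⌊x * nk k⌋₊) Filter.atTop (nhds (g x))) →
  (∀ x ∈ Set.Ioo a b, ∀ y ∈ Set.Ioo a b, |g x - g y| ≤ D * |x - y|) ∧
  (∀ x s t : ℝ, 0 ≤ s → 0 ≤ t → a < x → x + s + t < b →
    |g (x + s + t) - g (x + s) - g (x + t) + g x| ≤ C * (s * t))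

end Pool.Agent.Y197.SD
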