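import Mathlib

/-!
Second differences of crossing probabilities: one more statement of real analysis.
-/

set_option autoImplicit false

namespace Pool.Agent.Y197.SD

/-- Bounded second differences on the lattice: if the values converge to a function which is
differentiable at `x`, then the normalised first differences at `x` converge to its derivative. -/
def S_DER : Prop := ∀ (a b C D : ℝ) (H : ℕ → ℕ → ℝ) (nk : ℕ → ℕ) (g : ℝ → ℝ),
  0 < a → a < b → 0 ≤ C → 0 ≤ D → Filter.Tendsto nk Filter.atTop Filter.atTop →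
  (∀ᶠ n : ℕ in Filter.atTop, ∀ w : ℕ, a * n ≤ w + 1 → (w:ℝ) ≤ b * n + 1 →
    |H n (w + 1) - H n w| ≤ D / n ∧ |H n (w + 2) - 2 * H n (w + 1) + H n w| ≤ C / (n:ℝ) ^ 2) →
  (∀ x ∈ Set.Ioo a b, Filter.Tendsto (fun k => H (nk k) ⌊x * nk k⌋₊) Filter.atTop (nhds (g x))) →
  ∀ x ∈ Set.Ioo a b, ∀ g' : ℝ, HasDerivAt g g' x →
    Filter.Tendsto (fun k => (nk k : ℝ) * (H (nk k) (⌊x * nk k⌋₊ + 1) - H (nk k) ⌊x * nk k⌋₊))
      Filter.atTop (nhds g')

end Pool.Agent.Y197.SD
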