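import Pool.Agent.Y197.SD.Fin
import Pool.Agent.Y197.SD.Stm
import Pool.Agent.Y197.SD.StmB
import Pool.Agent.Y385.SD.CAL
import Pool.Agent.Y689.SD.DLIM

/-!
Second differences of the crossing probabilities of rectangles, part 4: the limits.
-/

set_option autoImplicit false

namespace Pool.Agent.Y197.SD

open H974 Finset Pool.Agent.W424.AR Filter Topology

/-- A decreasing function with difference quotients in `[-C, -c]` has its derivatives there. -/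
theorem der_bounds {a b c C : ℝ} {g g' : ℝ → ℝ}
    (hg : ∀ x ∈ Set.Ioo a b, HasDerivAt g (g' x) x)
    (h1 : ∀ x ∈ Set.Ioo a b, ∀ y ∈ Set.Ioo a b, x < y →
      c * (y - x) ≤ g x - g y ∧ g x - g y ≤ C * (y - x)) :
    ∀ x ∈ Set.Ioo a b, -C ≤ g' x ∧ g' x ≤ -c := by
  intro x hx
  have h2 := (hg x hx).tendsto_slope_zero_right
  have h3 : ∀ᶠ t : ℝ in 𝓝[>] 0, 0 < t ∧ t < b - x := by
    have := hx.2
    exact Ioo_mem_nhdsGT (by linarith)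
  constructor
  · refine ge_of_tendsto h2 ?_
    filter_upwards [h3] with t ht
    obtain ⟨-, h4⟩ := h1 x hx (x + t) ⟨by linarith [hx.1], by linarith⟩ (by linarith)
    rw [smul_eq_mul, inv_mul_eq_div, le_div_iff₀ ht.1]
    linarith
  · refine le_of_tendsto h2 ?_
    filter_upwards [h3] with t ht
    obtain ⟨h4, -⟩ := h1 x hx (x + t) ⟨by linarith [hx.1], by linarith⟩ (by linarith)
    rw [smul_eq_mul, inv_mul_eq_div, div_le_iff₀ ht.1]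
    linarith

theorem der_bounds' {a b c C : ℝ} {g g' : ℝ → ℝ}
    (hg : ∀ x ∈ Set.Ioo a b, HasDerivAt g (g' x) x)
    (h1 : ∀ x ∈ Set.Ioo a b, ∀ y ∈ Set.Ioo a b, x < y →
      c * (y - x) ≤ g y - g x ∧ g y - g x ≤ C * (y - x)) :
    ∀ x ∈ Set.Ioo a b, c ≤ g' x ∧ g' x ≤ C := by
  intro x hx
  have h2 := (hg x hx).tendsto_slope_zero_right
  have h3 : ∀ᶠ t : ℝ in 𝓝[>] 0, 0 < t ∧ t < b - x := by
    have := hx.2
    exact Ioo_mem_nhdsGT (by linarith)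
  constructor
  · refine ge_of_tendsto h2 ?_
    filter_upwards [h3] with t ht
    obtain ⟨h4, -⟩ := h1 x hx (x + t) ⟨by linarith [hx.1], by linarith⟩ (by linarith)
    rw [smul_eq_mul, inv_mul_eq_div, le_div_iff₀ ht.1]
    linarith
  · refine le_of_tendsto h2 ?_
    filter_upwards [h3] with t ht
    obtain ⟨-, h4⟩ := h1 x hx (x + t) ⟨by linarith [hx.1], by linarith⟩ (by linarith)
    rw [smul_eq_mul, inv_mul_eq_div, div_le_iff₀ ht.1]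
    linarith

/-- Bounds for a side `⌊x n⌋`, and the aspect ratio, for all large `n`. -/
theorem side (K : ℕ) (hK : 1 ≤ K) {l : ℝ} (hl : 1 / (K:ℝ) ≤ l) (hl' : l ≤ K) :
    ∀ᶠ n : ℕ in atTop, 2 ≤ ⌊l * n⌋₊ ∧ (n:ℝ) / (2 * K) ≤ ⌊l * n⌋₊ ∧
      ∀ w : ℕ, 1 / (K:ℝ) * n ≤ w + 1 → 2 ≤ w ∧ ⌊l * n⌋₊ ≤ 2 * K * K * w := by
  have hKr : (1:ℝ) ≤ K := by exact_mod_cast hK
  filter_upwards [eventually_ge_atTop (2 * K * 2)] with n hn
  obtain ⟨d1, d2, d3⟩ := floors K hK hl hl' hn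
  refine ⟨d3, d1, ?_⟩
  intro w hw
  have hw' : (n:ℝ) ≤ K * (w + 1) := by
    rw [one_div, inv_mul_le_iff₀ (by positivity)] at hw
    exact hw
  have hw2 : n ≤ K * (w + 1) := by exact_mod_cast hw'
  have hw3 : 2 ≤ w := by
    by_contra hcon
    have : w + 1 ≤ 2 := by omega
    have : K * (w + 1) ≤ K * 2 := Nat.mul_le_mul_left _ this
    nlinarith
  refine ⟨hw3, ?_⟩
  have h4 : (⌊l * n⌋₊ : ℝ) ≤ 2 * K * K * w := by
    have hw4 : (2:ℝ) ≤ w := by exact_mod_cast hw3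
    have : (K:ℝ) * n ≤ K * (K * (w + 1)) := mul_le_mul_of_nonneg_left hw' (by positivity)
    have : (K:ℝ) * K * (w + 1) ≤ K * K * (2 * w) :=
      mul_le_mul_of_nonneg_left (by linarith) (by positivity)
    nlinarith
  exact_mod_cast h4

theorem stepsW (K : ℕ) (hK : 1 ≤ K) : ∃ C D : ℝ, 0 < C ∧ 0 < D ∧
    ∀ l : ℝ, 1 / (K:ℝ) ≤ l → l ≤ K → ∀ᶠ n : ℕ in atTop, ∀ w : ℕ,
      1 / (K:ℝ) * n ≤ w + 1 → (w:ℝ) ≤ K * n + 1 →
      |hh (1/2) (w + 1 : ℕ) ⌊l * n⌋₊ - hh (1/2) (w : ℕ) ⌊l * n⌋₊| ≤ D / n ∧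
      |hh (1/2) (w + 2 : ℕ) ⌊l * n⌋₊ - 2 * hh (1/2) (w + 1 : ℕ) ⌊l * n⌋₊ + hh (1/2) (w : ℕ) ⌊l * n⌋₊| ≤ C / (n:ℝ) ^ 2 := by
  have hKr : (1:ℝ) ≤ K := by exact_mod_cast hK
  obtain ⟨c1, C1, hc1, hC1, o1⟩ := order (2 * K * K) (by nlinarith)
  obtain ⟨C2, hC2, o2⟩ := sdW (2 * K * K) (by nlinarith)
  refine ⟨C2 * (2 * K) ^ 2, C1 * (2 * K), by positivity, by positivity, ?_⟩
  intro l hl hl'
  have hl0 : 0 < l := lt_of_lt_of_le (by positivity) hl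
  filter_upwards [side K hK hl hl', eventually_gt_atTop 0] with n hn n0
  obtain ⟨h2, h3, h4⟩ := hn
  intro w hw _
  obtain ⟨h5, h6⟩ := h4 w hw
  have npos : (0:ℝ) < n := by exact_mod_cast n0
  have hpos : (0:ℝ) < (⌊l * n⌋₊ : ℝ) := by exact_mod_cast (show 0 < ⌊l * n⌋₊ by omega)
  have h3' : (n:ℝ) ≤ 2 * K * ⌊l * n⌋₊ := by
    rw [div_le_iff₀ (by positivity)] at h3
    linarith
  have z1 : ((⌊l * n⌋₊ : ℕ) : ℤ) ≤ ((2 * K * K : ℕ) : ℤ) * (w:ℤ) := by exact_mod_cast h6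
  constructor
  · obtain ⟨a1, a2⟩ := o1 w ⌊l * n⌋₊ (by exact_mod_cast (show 1 ≤ w by omega))
      (by exact_mod_cast (show 1 ≤ ⌊l * n⌋₊ by omega)) z1
    have a3 := DD_nonneg (w := (w:ℤ)) (⌊l * n⌋₊ : ℤ) (by exact_mod_cast (show 1 ≤ w by omega))
    have a4 := hh01 (w:ℤ) (⌊l * n⌋₊ : ℤ)
    unfold DD at a2 a3
    push_cast at a2 a3 a4 ⊢
    rw [abs_sub_comm, abs_of_nonneg a3]
    refine a2.trans ?_
    rw [div_le_div_iff₀ hpos npos]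
    have a5 : C1 * hh (1/2) w ⌊l * n⌋₊ ≤ C1 := by
      have := mul_le_mul_of_nonneg_left a4.2 hC1.le
      linarith
    calc C1 * hh (1/2) w ⌊l * n⌋₊ * n ≤ C1 * n := mul_le_mul_of_nonneg_right a5 npos.le
      _ ≤ C1 * (2 * K * ⌊l * n⌋₊) := mul_le_mul_of_nonneg_left h3' hC1.le
      _ = _ := by ring
  · have a1 := o2 (w + 1) ⌊l * n⌋₊ (by omega) (by exact_mod_cast (show 1 ≤ ⌊l * n⌋₊ by omega))
      (by
        refine z1.trans ?_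
        exact mul_le_mul_of_nonneg_left (by omega) (by positivity))
    have e1 : (w:ℤ) + 1 + 1 = w + 2 := by ring
    have e2 : (w:ℤ) + 1 - 1 = w := by ring
    rw [e1, e2] at a1
    have a4 := hh01 (w + 1:ℤ) (⌊l * n⌋₊ : ℤ)
    push_cast at a1 a4 ⊢
    refine a1.trans ?_
    rw [div_le_div_iff₀ (by positivity) (by positivity)]
    have a5 : C2 * hh (1/2) (w + 1) ⌊l * n⌋₊ ≤ C2 := by
      have := mul_le_mul_of_nonneg_left a4.2 hC2.le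
      linarith
    calc C2 * hh (1/2) (w + 1) ⌊l * n⌋₊ * (n:ℝ) ^ 2 ≤ C2 * (n:ℝ) ^ 2 :=
          mul_le_mul_of_nonneg_right a5 (by positivity)
      _ ≤ C2 * (2 * K * ⌊l * n⌋₊) ^ 2 := by gcongr
      _ = _ := by ring

theorem limW (hD : S_DER) (K : ℕ) (hK : 1 ≤ K) : ∃ c C : ℝ, 0 < c ∧ 0 < C ∧
    ∀ (ψ : ℕ → ℕ), Tendsto ψ atTop atTop → ∀ (l : ℝ) (g : ℝ → ℝ), 1 / (K:ℝ) ≤ l → l ≤ K →
      (∀ L ∈ Set.Ioo (1 / (K:ℝ)) K,
        Tendsto (fun k => hh (1/2) ⌊L * ψ k⌋₊ ⌊l * ψ k⌋₊) atTop (𝓝 (g L))) →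
      ∃ g' : ℝ → ℝ, (∀ L ∈ Set.Ioo (1 / (K:ℝ)) K, HasDerivAt g (g' L) L ∧
          (-C ≤ g' L ∧ g' L ≤ -c) ∧
          Tendsto (fun k => (ψ k : ℝ) * (hh (1/2) ((⌊L * ψ k⌋₊ + 1 : ℕ) : ℤ) ⌊l * ψ k⌋₊ -
            hh (1/2) ((⌊L * ψ k⌋₊ : ℕ) : ℤ) ⌊l * ψ k⌋₊)) atTop (𝓝 (g' L))) ∧
        ∀ L ∈ Set.Ioo (1 / (K:ℝ)) K, ∀ L' ∈ Set.Ioo (1 / (K:ℝ)) K,
          |g' L - g' L'| ≤ C * |L - L'| := by
  have hKr : (1:ℝ) ≤ K := by exact_mod_cast hK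
  obtain ⟨C2, D2, hC2, hD2, hst⟩ := stepsW K hK
  obtain ⟨c3, C3, hc3, hC3, o3, -⟩ := scaling K hK
  refine ⟨c3, max C3 C2, hc3, lt_max_of_lt_left hC3, ?_⟩
  intro ψ hψ l g hl hl' hg
  have hl0 : 0 < l := lt_of_lt_of_le (by positivity) hl
  rcases lt_or_ge 1 K with hK1 | hK1
  swap
  · -- the interval is empty
    have hKe : K = 1 := by omega
    subst hKe
    refine ⟨g, ?_, ?_⟩
    · intro L hL
      exfalso
      simp at hL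
    · intro L hL
      exfalso
      simp at hL
  have hab : 1 / (K:ℝ) < K := by
    have : (1:ℝ) < K := by exact_mod_cast hK1
    rw [div_lt_iff₀ (by positivity)]
    nlinarith
  have hlim := Pool.Agent.Y689.SD.DLIM.main (1 / (K:ℝ)) K C2 D2
    (fun n w => hh (1/2) w ⌊l * n⌋₊) ψ g (by positivity) hab (by positivity) (by positivity) hψ
    (hst l hl hl') hg
  obtain ⟨k1, k2⟩ := hlim
  obtain ⟨g', k3, k4⟩ := Pool.Agent.Y385.SD.main (1 / (K:ℝ)) K C2 D2 g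
    hab (by positivity) (by positivity) k1 k2
  have k5 : ∀ x ∈ Set.Ioo (1 / (K:ℝ)) K, ∀ y ∈ Set.Ioo (1 / (K:ℝ)) K, x < y →
      c3 * (y - x) ≤ g x - g y ∧ g x - g y ≤ C3 * (y - x) := by
    intro x hx y hy hxy
    have k6 := hψ.eventually (o3 x y l hx.1.le hxy hy.2.le hl hl')
    have k7 := (hg x hx).sub (hg y hy)
    constructor
    · refine ge_of_tendsto k7 ?_
      filter_upwards [k6] with k hk using hk.1
    · refine le_of_tendsto k7 ?_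
      filter_upwards [k6] with k hk using hk.2
  have k8 := der_bounds k3 k5
  refine ⟨g', ?_, ?_⟩
  · intro L hL
    refine ⟨k3 L hL, ⟨?_, (k8 L hL).2⟩, ?_⟩
    · have := (k8 L hL).1
      have := le_max_left C3 C2
      linarith
    · exact hD (1 / (K:ℝ)) K C2 D2 (fun n w => hh (1/2) w ⌊l * n⌋₊) ψ g (by positivity) hab
        (by positivity) (by positivity) hψ (hst l hl hl') hg L hL (g' L) (k3 L hL)
  · intro L hL L' hL'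
    exact (k4 L hL L' hL').trans (mul_le_mul_of_nonneg_right (le_max_right _ _) (abs_nonneg _))

theorem stepsH (K : ℕ) (hK : 1 ≤ K) : ∃ C D : ℝ, 0 < C ∧ 0 < D ∧
    ∀ l : ℝ, 1 / (K:ℝ) ≤ l → l ≤ K → ∀ᶠ n : ℕ in atTop, ∀ w : ℕ,
      1 / (K:ℝ) * n ≤ w + 1 → (w:ℝ) ≤ K * n + 1 →
      |hh (1/2) ⌊l * n⌋₊ (w + 1 : ℕ) - hh (1/2) ⌊l * n⌋₊ (w : ℕ)| ≤ D / n ∧
      |hh (1/2) ⌊l * n⌋₊ (w + 2 : ℕ) - 2 * hh (1/2) ⌊l * n⌋₊ (w + 1 : ℕ) + hh (1/2) ⌊l * n⌋₊ (w : ℕ)| ≤ C / (n:ℝ) ^ 2 := by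
  have hKr : (1:ℝ) ≤ K := by exact_mod_cast hK
  obtain ⟨c1, C1, hc1, hC1, o1⟩ := orderH (2 * K * K) (by nlinarith)
  obtain ⟨C2, hC2, o2⟩ := sdH (2 * K * K) (by nlinarith)
  refine ⟨C2 * (2 * K) ^ 2, C1 * (2 * K), by positivity, by positivity, ?_⟩
  intro l hl hl'
  have hl0 : 0 < l := lt_of_lt_of_le (by positivity) hl
  filter_upwards [side K hK hl hl', eventually_gt_atTop 0] with n hn n0
  obtain ⟨h2, h3, h4⟩ := hn
  intro w hw _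
  obtain ⟨h5, h6⟩ := h4 w hw
  have npos : (0:ℝ) < n := by exact_mod_cast n0
  have hpos : (0:ℝ) < (⌊l * n⌋₊ : ℝ) := by exact_mod_cast (show 0 < ⌊l * n⌋₊ by omega)
  have h3' : (n:ℝ) ≤ 2 * K * ⌊l * n⌋₊ := by
    rw [div_le_iff₀ (by positivity)] at h3
    linarith
  have z1 : ((⌊l * n⌋₊ : ℕ) : ℤ) ≤ ((2 * K * K : ℕ) : ℤ) * (w:ℤ) := by exact_mod_cast h6
  constructor
  · obtain ⟨a1, a2⟩ := o1 ⌊l * n⌋₊ w (by exact_mod_cast h2)
      (by exact_mod_cast (show 1 ≤ w by omega)) z1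
    have a3 : 0 ≤ hh (1/2) ⌊l * n⌋₊ (w + 1) - hh (1/2) ⌊l * n⌋₊ w := by
      refine le_trans ?_ a1
      have := hh01 (⌊l * n⌋₊ : ℤ) (w:ℤ)
      apply div_nonneg (mul_nonneg hc1.le (by linarith)) (by positivity)
    have a4 := hh01 (⌊l * n⌋₊ : ℤ) (w:ℤ)
    push_cast at a2 a3 a4 ⊢
    rw [abs_of_nonneg a3]
    refine a2.trans ?_
    rw [div_le_div_iff₀ hpos npos]
    have a5 : C1 * (1 - hh (1/2) ⌊l * n⌋₊ w) ≤ C1 := by
      have := mul_nonneg hC1.le a4.1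
      linarith
    calc C1 * (1 - hh (1/2) ⌊l * n⌋₊ w) * n ≤ C1 * n := mul_le_mul_of_nonneg_right a5 npos.le
      _ ≤ C1 * (2 * K * ⌊l * n⌋₊) := mul_le_mul_of_nonneg_left h3' hC1.le
      _ = _ := by ring
  · have a1 := o2 ⌊l * n⌋₊ (w + 1) (by exact_mod_cast h2) (by omega)
      (by
        refine z1.trans ?_
        exact mul_le_mul_of_nonneg_left (by omega) (by positivity))
    have e1 : (w:ℤ) + 1 + 1 = w + 2 := by ring
    have e2 : (w:ℤ) + 1 - 1 = w := by ring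
    rw [e1, e2] at a1
    have a4 := hh01 (⌊l * n⌋₊ : ℤ) (w + 1:ℤ)
    push_cast at a1 a4 ⊢
    refine a1.trans ?_
    rw [div_le_div_iff₀ (by positivity) (by positivity)]
    have a5 : C2 * (1 - hh (1/2) ⌊l * n⌋₊ (w + 1)) ≤ C2 := by
      have := mul_nonneg hC2.le a4.1
      linarith
    calc C2 * (1 - hh (1/2) ⌊l * n⌋₊ (w + 1)) * (n:ℝ) ^ 2 ≤ C2 * (n:ℝ) ^ 2 :=
          mul_le_mul_of_nonneg_right a5 (by positivity)
      _ ≤ C2 * (2 * K * ⌊l * n⌋₊) ^ 2 := by gcongr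
      _ = _ := by ring

theorem limH (hD : S_DER) (K : ℕ) (hK : 1 ≤ K) : ∃ c C : ℝ, 0 < c ∧ 0 < C ∧
    ∀ (ψ : ℕ → ℕ), Tendsto ψ atTop atTop → ∀ (L : ℝ) (g : ℝ → ℝ), 1 / (K:ℝ) ≤ L → L ≤ K →
      (∀ l ∈ Set.Ioo (1 / (K:ℝ)) K,
        Tendsto (fun k => hh (1/2) ⌊L * ψ k⌋₊ ⌊l * ψ k⌋₊) atTop (𝓝 (g l))) →
      ∃ g' : ℝ → ℝ, (∀ l ∈ Set.Ioo (1 / (K:ℝ)) K, HasDerivAt g (g' l) l ∧
          (c ≤ g' l ∧ g' l ≤ C) ∧
          Tendsto (fun k => (ψ k : ℝ) * (hh (1/2) ⌊L * ψ k⌋₊ ((⌊l * ψ k⌋₊ + 1 : ℕ) : ℤ) -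
            hh (1/2) ⌊L * ψ k⌋₊ ((⌊l * ψ k⌋₊ : ℕ) : ℤ))) atTop (𝓝 (g' l))) ∧
        ∀ l ∈ Set.Ioo (1 / (K:ℝ)) K, ∀ l' ∈ Set.Ioo (1 / (K:ℝ)) K,
          |g' l - g' l'| ≤ C * |l - l'| := by
  have hKr : (1:ℝ) ≤ K := by exact_mod_cast hK
  obtain ⟨C2, D2, hC2, hD2, hst⟩ := stepsH K hK
  obtain ⟨c3, C3, hc3, hC3, -, o3⟩ := scaling K hK
  refine ⟨c3, max C3 C2, hc3, lt_max_of_lt_left hC3, ?_⟩
  intro ψ hψ l g hl hl' hg
  have hl0 : 0 < l := lt_of_lt_of_le (by positivity) hl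
  rcases lt_or_ge 1 K with hK1 | hK1
  swap
  · -- the interval is empty
    have hKe : K = 1 := by omega
    subst hKe
    refine ⟨g, ?_, ?_⟩
    · intro L hL
      exfalso
      simp at hL
    · intro L hL
      exfalso
      simp at hL
  have hab : 1 / (K:ℝ) < K := by
    have : (1:ℝ) < K := by exact_mod_cast hK1
    rw [div_lt_iff₀ (by positivity)]
    nlinarith
  have hlim := Pool.Agent.Y689.SD.DLIM.main (1 / (K:ℝ)) K C2 D2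
    (fun n w => hh (1/2) ⌊l * n⌋₊ w) ψ g (by positivity) hab (by positivity) (by positivity) hψ
    (hst l hl hl') hg
  obtain ⟨k1, k2⟩ := hlim
  obtain ⟨g', k3, k4⟩ := Pool.Agent.Y385.SD.main (1 / (K:ℝ)) K C2 D2 g
    hab (by positivity) (by positivity) k1 k2
  have k5 : ∀ x ∈ Set.Ioo (1 / (K:ℝ)) K, ∀ y ∈ Set.Ioo (1 / (K:ℝ)) K, x < y →
      c3 * (y - x) ≤ g y - g x ∧ g y - g x ≤ C3 * (y - x) := by
    intro x hx y hy hxy
    have k6 := hψ.eventually (o3 l x y hl hl' hx.1.le hxy hy.2.le)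
    have k7 := (hg y hy).sub (hg x hx)
    constructor
    · refine ge_of_tendsto k7 ?_
      filter_upwards [k6] with k hk using hk.1
    · refine le_of_tendsto k7 ?_
      filter_upwards [k6] with k hk using hk.2
  have k8 := der_bounds' k3 k5
  refine ⟨g', ?_, ?_⟩
  · intro L hL
    refine ⟨k3 L hL, ⟨(k8 L hL).1, (k8 L hL).2.trans (le_max_left _ _)⟩, ?_⟩
    exact hD (1 / (K:ℝ)) K C2 D2 (fun n w => hh (1/2) ⌊l * n⌋₊ w) ψ g (by positivity) hab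
        (by positivity) (by positivity) hψ (hst l hl hl') hg L hL (g' L) (k3 L hL)
  · intro L hL L' hL'
    exact (k4 L hL L' hL').trans (mul_le_mul_of_nonneg_right (le_max_right _ _) (abs_nonneg _))

end Pool.Agent.Y197.SD
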