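import Pool.Agent.Y197.SD.Fin

/-!
Crossing probabilities of rectangles: existence of limits along subsequences, for all sides at once.
-/

set_option autoImplicit false

namespace Pool.Agent.Y197.SD

open H974 Finset Pool.Agent.W424.AR Filter Topology

/-- The crossing probabilities of nearby rectangles are close, for all large meshes. -/
theorem near {L l ε : ℝ} (hL : 0 < L) (hl : 0 < l) (hε : 0 < ε) :
    ∃ q r : ℚ, ∀ᶠ n : ℕ in atTop,
      |hh (1/2) ⌊L * n⌋₊ ⌊l * n⌋₊ - hh (1/2) ⌊(q:ℝ) * n⌋₊ ⌊(r:ℝ) * n⌋₊| ≤ ε := by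
  obtain ⟨K, hK⟩ := exists_nat_ge (max (max (L + 1) (l + 1)) (max (1 / L) (1 / l)))
  have k1 : L + 1 ≤ K := ((le_max_left _ _).trans (le_max_left _ _)).trans hK
  have k2 : l + 1 ≤ K := ((le_max_right _ _).trans (le_max_left _ _)).trans hK
  have k3 : 1 / L ≤ K := ((le_max_left _ _).trans (le_max_right _ _)).trans hK
  have k4 : 1 / l ≤ K := ((le_max_right _ _).trans (le_max_right _ _)).trans hK
  have hK1 : 1 ≤ K := by
    have : (1:ℝ) ≤ K := by linarith
    exact_mod_cast this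
  have Kpos : (0:ℝ) < K := by linarith
  have k5 : 1 / (K:ℝ) ≤ L := by
    rw [div_le_iff₀ Kpos]
    rw [div_le_iff₀ hL] at k3
    linarith
  have k6 : 1 / (K:ℝ) ≤ l := by
    rw [div_le_iff₀ Kpos]
    rw [div_le_iff₀ hl] at k4
    linarith
  obtain ⟨c, C, hc, hC, s1, s2⟩ := scaling K hK1
  obtain ⟨δ, hδ⟩ : ∃ δ : ℝ, δ = min 1 (ε / (2 * C)) := ⟨_, rfl⟩
  have d0 : 0 < δ := by rw [hδ]; positivity
  have d1 : δ ≤ 1 := by rw [hδ]; exact min_le_left _ _
  have d2 : C * δ ≤ ε / 2 := by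
    have : δ ≤ ε / (2 * C) := by rw [hδ]; exact min_le_right _ _
    calc C * δ ≤ C * (ε / (2 * C)) := mul_le_mul_of_nonneg_left this hC.le
      _ = ε / 2 := by field_simp
  obtain ⟨q, q1, q2⟩ := exists_rat_btwn (show L < L + δ by linarith)
  obtain ⟨r, r1, r2⟩ := exists_rat_btwn (show l < l + δ by linarith)
  refine ⟨q, r, ?_⟩
  filter_upwards [s1 L q l k5 q1 (by linarith) k6 (by linarith),
    s2 q l r (by linarith) (by linarith) k6 r1 (by linarith)] with n h1 h2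
  have e1 : c * ((q:ℝ) - L) ≥ 0 := by
    have : 0 ≤ (q:ℝ) - L := by linarith
    positivity
  have e2 : c * ((r:ℝ) - l) ≥ 0 := by
    have : 0 ≤ (r:ℝ) - l := by linarith
    positivity
  have e3 : C * ((q:ℝ) - L) ≤ C * δ := mul_le_mul_of_nonneg_left (by linarith) hC.le
  have e4 : C * ((r:ℝ) - l) ≤ C * δ := mul_le_mul_of_nonneg_left (by linarith) hC.le
  rw [abs_le]
  constructor <;> linarith [h1.1, h1.2, h2.1, h2.2]

/-- Every sequence of meshes has a subsequence along which the crossing probabilities converge, for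
all pairs of sides. -/
theorem subseq {ψ : ℕ → ℕ} (hψ : Tendsto ψ atTop atTop) : ∃ φ : ℕ → ℕ, StrictMono φ ∧
    ∀ L l : ℝ, 0 < L → 0 < l → ∃ γ : ℝ,
      Tendsto (fun k => hh (1/2) ⌊L * ψ (φ k)⌋₊ ⌊l * ψ (φ k)⌋₊) atTop (𝓝 γ) := by
  have hcomp : IsCompact (Set.univ.pi (fun _ : ℚ × ℚ => Set.Icc (0:ℝ) 1)) :=
    isCompact_univ_pi (fun _ => isCompact_Icc)
  obtain ⟨g, -, φ, hφ, hg⟩ := hcomp.tendsto_subseq (x := fun k (p : ℚ × ℚ) =>
    hh (1/2) ⌊(p.1:ℝ) * ψ k⌋₊ ⌊(p.2:ℝ) * ψ k⌋₊) (by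
      intro k p _
      exact hh01 _ _)
  rw [tendsto_pi_nhds] at hg
  refine ⟨φ, hφ, ?_⟩
  intro L l hL hl
  have hψφ : Tendsto (fun k => ψ (φ k)) atTop atTop := hψ.comp hφ.tendsto_atTop
  have hc : CauchySeq (fun k => hh (1/2) ⌊L * ψ (φ k)⌋₊ ⌊l * ψ (φ k)⌋₊) := by
    rw [Metric.cauchySeq_iff]
    intro ε hε
    obtain ⟨q, r, hn⟩ := near hL hl (show 0 < ε / 4 by positivity)
    have h1 := hψφ.eventually hn
    have h2 := (hg (q, r)).cauchySeq
    rw [Metric.cauchySeq_iff] at h2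
    obtain ⟨N1, hN1⟩ := h2 (ε / 4) (by positivity)
    obtain ⟨N2, hN2⟩ := eventually_atTop.mp h1
    refine ⟨max N1 N2, ?_⟩
    intro m hm n hn
    have a1 := hN1 m (le_trans (le_max_left _ _) hm) n (le_trans (le_max_left _ _) hn)
    have a2 := hN2 m (le_trans (le_max_right _ _) hm)
    have a3 := hN2 n (le_trans (le_max_right _ _) hn)
    rw [Real.dist_eq] at a1 ⊢
    simp only [Function.comp] at a1
    rw [abs_lt] at a1 ⊢
    rw [abs_le] at a2 a3
    constructor <;> linarith [a1.1, a1.2, a2.1, a2.2, a3.1, a3.2]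
  exact cauchySeq_tendsto_of_complete hc

end Pool.Agent.Y197.SD
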