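import Pool.Agent.Y197.SD.Lim
import Pool.Agent.Y197.SD.Sub
import Pool.Agent.Y948.SD.DER

/-!
Second differences of the crossing probabilities of rectangles, part 5: joint regularity of the
limits in the two sides.
-/

set_option autoImplicit false

namespace Pool.Agent.Y197.SD

open H974 Finset Pool.Agent.W424.AR Filter Topology

/-- Two functions with Lipschitz derivatives which are close have close derivatives. -/
theorem hol {a b C D : ℝ} {f g f' g' : ℝ → ℝ} (hC : 0 ≤ C)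
    (hf : ∀ x ∈ Set.Ioo a b, HasDerivAt f (f' x) x)
    (hg : ∀ x ∈ Set.Ioo a b, HasDerivAt g (g' x) x)
    (lf : ∀ x ∈ Set.Ioo a b, ∀ y ∈ Set.Ioo a b, |f' x - f' y| ≤ C * |x - y|)
    (lg : ∀ x ∈ Set.Ioo a b, ∀ y ∈ Set.Ioo a b, |g' x - g' y| ≤ C * |x - y|)
    (hD : ∀ x ∈ Set.Ioo a b, |f x - g x| ≤ D) {x t : ℝ} (hx : x ∈ Set.Ioo a b) (ht : 0 < t)
    (ht2 : 2 * t < b - a) : |f' x - g' x| ≤ 2 * D / t + 2 * C * t := by
  have key : ∀ y z : ℝ, y ∈ Set.Ioo a b → z ∈ Set.Ioo a b → y < z → z - y = t →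
      (x = y ∨ x = z) → |f' x - g' x| ≤ 2 * D / t + 2 * C * t := by
    intro y z hy hz hyz hzy hxe
    have hin : ∀ w ∈ Set.Icc y z, w ∈ Set.Ioo a b := by
      intro w hw
      exact ⟨lt_of_lt_of_le hy.1 hw.1, lt_of_le_of_lt hw.2 hz.2⟩
    have hder : ∀ w ∈ Set.Icc y z, HasDerivAt (fun s => f s - g s) (f' w - g' w) w := by
      intro w hw
      exact (hf w (hin w hw)).sub (hg w (hin w hw))
    obtain ⟨ξ, hξ, hξe⟩ := exists_hasDerivAt_eq_slope (fun s => f s - g s)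
      (fun s => f' s - g' s) hyz
      (fun w hw => (hder w hw).continuousAt.continuousWithinAt)
      (fun w hw => hder w ⟨hw.1.le, hw.2.le⟩)
    have h1 := hD y hy
    have h2 := hD z hz
    have hξi : ξ ∈ Set.Ioo a b := hin ξ ⟨hξ.1.le, hξ.2.le⟩
    have h3 : |f' ξ - g' ξ| ≤ 2 * D / t := by
      rw [hξe, hzy, abs_div, abs_of_pos ht]
      apply div_le_div_of_nonneg_right _ ht.le
      rw [abs_le] at h1 h2 ⊢
      constructor <;> linarith [h1.1, h1.2, h2.1, h2.2]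
    have h4 : |x - ξ| ≤ t := by
      rw [abs_le]
      rcases hxe with rfl | rfl
      · constructor <;> linarith [hξ.1, hξ.2]
      · constructor <;> linarith [hξ.1, hξ.2]
    have h5 := lf x hx ξ hξi
    have h6 := lg x hx ξ hξi
    have h7 : C * |x - ξ| ≤ C * t := mul_le_mul_of_nonneg_left h4 hC
    rw [abs_le] at h3 h5 h6 ⊢
    constructor <;> linarith [h3.1, h3.2, h5.1, h5.2, h6.1, h6.2]
  rcases lt_or_ge (x + t) b with h | h
  · exact key x (x + t) hx ⟨by linarith [hx.1], h⟩ (by linarith) (by ring) (Or.inl rfl)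
  · exact key (x - t) x ⟨by linarith, by linarith [hx.2]⟩ hx (by linarith) (by ring) (Or.inr rfl)

/-- The choice of the step. -/
theorem hol_sqrt {K : ℕ} (hK : 2 ≤ K) {C D s : ℝ} {f g f' g' : ℝ → ℝ} (hC : 0 ≤ C) (hD0 : 0 ≤ D)
    (hs0 : 0 ≤ s) (hs : s ≤ K)
    (hf : ∀ x ∈ Set.Ioo (1 / (K:ℝ)) K, HasDerivAt f (f' x) x)
    (hg : ∀ x ∈ Set.Ioo (1 / (K:ℝ)) K, HasDerivAt g (g' x) x)
    (lf : ∀ x ∈ Set.Ioo (1 / (K:ℝ)) K, ∀ y ∈ Set.Ioo (1 / (K:ℝ)) K, |f' x - f' y| ≤ C * |x - y|)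
    (lg : ∀ x ∈ Set.Ioo (1 / (K:ℝ)) K, ∀ y ∈ Set.Ioo (1 / (K:ℝ)) K, |g' x - g' y| ≤ C * |x - y|)
    (hD : ∀ x ∈ Set.Ioo (1 / (K:ℝ)) K, |f x - g x| ≤ D * s) {x : ℝ}
    (hx : x ∈ Set.Ioo (1 / (K:ℝ)) K) :
    |f' x - g' x| ≤ (2 * D * (2 * K) + 2 * C) * Real.sqrt s := by
  have hKr : (2:ℝ) ≤ K := by exact_mod_cast hK
  have h12 : 1 / (K:ℝ) ≤ 1 / 2 := one_div_le_one_div_of_le (by norm_num) hKr
  rcases eq_or_lt_of_le hs0 with h0 | h0
  · -- the functions agree
    rw [← h0] at hD ⊢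
    rw [Real.sqrt_zero, mul_zero]
    by_contra hcon
    push Not at hcon
    obtain ⟨t, ht⟩ : ∃ t : ℝ, t = min (1/2) (|f' x - g' x| / (2 * C + 1) / 2) := ⟨_, rfl⟩
    have t0 : 0 < t := by rw [ht]; positivity
    have t1 : t ≤ 1/2 := by rw [ht]; exact min_le_left _ _
    have t2 : t ≤ |f' x - g' x| / (2 * C + 1) / 2 := by rw [ht]; exact min_le_right _ _
    have h1 := hol hC hf hg lf lg hD hx t0 (by linarith)
    rw [mul_zero, mul_zero, zero_div, zero_add] at h1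
    have h2 : (2 * C + 1) * t ≤ |f' x - g' x| / 2 := by
      calc (2 * C + 1) * t ≤ (2 * C + 1) * (|f' x - g' x| / (2 * C + 1) / 2) :=
            mul_le_mul_of_nonneg_left t2 (by positivity)
        _ = |f' x - g' x| / 2 := by field_simp
    linarith
  · obtain ⟨t, ht⟩ : ∃ t : ℝ, t = Real.sqrt s / (2 * K) := ⟨_, rfl⟩
    have r0 : 0 < Real.sqrt s := Real.sqrt_pos.mpr h0
    have t0 : 0 < t := by rw [ht]; positivity
    have r1 : Real.sqrt s ≤ K := by
      rw [Real.sqrt_le_left (by positivity)]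
      nlinarith
    have t1 : t ≤ 1/2 := by
      rw [ht, div_le_iff₀ (by positivity)]
      linarith
    have h1 := hol hC hf hg lf lg hD hx t0 (by linarith)
    refine h1.trans ?_
    have e1 : 2 * (D * s) / t = 2 * D * (2 * K) * Real.sqrt s := by
      rw [ht]
      have : s = Real.sqrt s * Real.sqrt s := (Real.mul_self_sqrt hs0).symm
      nth_rewrite 1 [this]
      field_simp
    have e2 : t ≤ Real.sqrt s := by
      rw [ht, div_le_iff₀ (by positivity)]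
      nlinarith
    rw [e1, add_mul]
    have := mul_le_mul_of_nonneg_left e2 (show 0 ≤ 2 * C by positivity)
    linarith

theorem jointW (K : ℕ) (hK : 1 ≤ K) : ∃ C : ℝ, 0 < C ∧
    ∀ (ψ : ℕ → ℕ), Tendsto ψ atTop atTop → ∀ (l l' : ℝ) (g h : ℝ → ℝ),
      1 / (K:ℝ) ≤ l → l ≤ K → 1 / (K:ℝ) ≤ l' → l' ≤ K →
      (∀ L ∈ Set.Ioo (1 / (K:ℝ)) K,
        Tendsto (fun k => hh (1/2) ⌊L * ψ k⌋₊ ⌊l * ψ k⌋₊) atTop (𝓝 (g L))) →
      (∀ L ∈ Set.Ioo (1 / (K:ℝ)) K,
        Tendsto (fun k => hh (1/2) ⌊L * ψ k⌋₊ ⌊l' * ψ k⌋₊) atTop (𝓝 (h L))) →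
      ∀ L ∈ Set.Ioo (1 / (K:ℝ)) K, ∀ d d' : ℝ, HasDerivAt g d L → HasDerivAt h d' L →
        |d - d'| ≤ C * Real.sqrt |l - l'| := by
  obtain ⟨c, C, hc, hC, hW⟩ := limW Pool.Agent.Y948.SD.main K hK
  obtain ⟨c3, C3, hc3, hC3, -, o3⟩ := scaling K hK
  refine ⟨2 * C3 * (2 * K) + 2 * C, by positivity, ?_⟩
  intro ψ hψ l l' g h hl1 hl2 hl1' hl2' hg hh' L hL d d' hd hd'
  rcases lt_or_ge 1 K with hK1 | hK1
  swap
  · have hKe : K = 1 := by omega
    subst hKe
    exfalso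
    simp at hL
  obtain ⟨g1, a1, a2⟩ := hW ψ hψ l g hl1 hl2 hg
  obtain ⟨h1, b1, b2⟩ := hW ψ hψ l' h hl1' hl2' hh'
  rw [hd.unique (a1 L hL).1, hd'.unique (b1 L hL).1]
  have pos : (0:ℝ) < 1 / (K:ℝ) := by positivity
  refine hol_sqrt (by omega) hC.le hC3.le (abs_nonneg _) ?_ (fun x hx => (a1 x hx).1)
    (fun x hx => (b1 x hx).1) a2 b2 ?_ hL
  · rw [abs_le]; constructor <;> linarith
  · intro x hx
    have k7 := (hg x hx).sub (hh' x hx)
    rcases lt_trichotomy l l' with hll | hll | hll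
    · have k6 := hψ.eventually (o3 x l l' hx.1.le hx.2.le hl1 hll hl2')
      rw [abs_sub_comm l l', abs_of_pos (show 0 < l' - l by linarith), abs_le]
      constructor
      · refine ge_of_tendsto k7 ?_
        filter_upwards [k6] with k hk
        linarith [hk.2]
      · refine le_of_tendsto k7 ?_
        filter_upwards [k6] with k hk
        have : 0 ≤ c3 * (l' - l) := mul_nonneg hc3.le (by linarith)
        have : 0 ≤ C3 * (l' - l) := mul_nonneg hC3.le (by linarith)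
        linarith [hk.1]
    · subst hll
      have : g x = h x := tendsto_nhds_unique (hg x hx) (hh' x hx)
      rw [this]
      simp
    · have k6 := hψ.eventually (o3 x l' l hx.1.le hx.2.le hl1' hll hl2)
      rw [abs_of_pos (show 0 < l - l' by linarith), abs_le]
      constructor
      · refine ge_of_tendsto k7 ?_
        filter_upwards [k6] with k hk
        have : 0 ≤ c3 * (l - l') := mul_nonneg hc3.le (by linarith)
        have : 0 ≤ C3 * (l - l') := mul_nonneg hC3.le (by linarith)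
        linarith [hk.1]
      · refine le_of_tendsto k7 ?_
        filter_upwards [k6] with k hk
        linarith [hk.2]

theorem jointH (K : ℕ) (hK : 1 ≤ K) : ∃ C : ℝ, 0 < C ∧
    ∀ (ψ : ℕ → ℕ), Tendsto ψ atTop atTop → ∀ (L L' : ℝ) (g h : ℝ → ℝ),
      1 / (K:ℝ) ≤ L → L ≤ K → 1 / (K:ℝ) ≤ L' → L' ≤ K →
      (∀ l ∈ Set.Ioo (1 / (K:ℝ)) K,
        Tendsto (fun k => hh (1/2) ⌊L * ψ k⌋₊ ⌊l * ψ k⌋₊) atTop (𝓝 (g l))) →
      (∀ l ∈ Set.Ioo (1 / (K:ℝ)) K,
        Tendsto (fun k => hh (1/2) ⌊L' * ψ k⌋₊ ⌊l * ψ k⌋₊) atTop (𝓝 (h l))) →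
      ∀ l ∈ Set.Ioo (1 / (K:ℝ)) K, ∀ d d' : ℝ, HasDerivAt g d l → HasDerivAt h d' l →
        |d - d'| ≤ C * Real.sqrt |L - L'| := by
  obtain ⟨c, C, hc, hC, hW⟩ := limH Pool.Agent.Y948.SD.main K hK
  obtain ⟨c3, C3, hc3, hC3, o3, -⟩ := scaling K hK
  refine ⟨2 * C3 * (2 * K) + 2 * C, by positivity, ?_⟩
  intro ψ hψ l l' g h hl1 hl2 hl1' hl2' hg hh' L hL d d' hd hd'
  rcases lt_or_ge 1 K with hK1 | hK1
  swap
  · have hKe : K = 1 := by omega
    subst hKe
    exfalso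
    simp at hL
  obtain ⟨g1, a1, a2⟩ := hW ψ hψ l g hl1 hl2 hg
  obtain ⟨h1, b1, b2⟩ := hW ψ hψ l' h hl1' hl2' hh'
  rw [hd.unique (a1 L hL).1, hd'.unique (b1 L hL).1]
  have pos : (0:ℝ) < 1 / (K:ℝ) := by positivity
  refine hol_sqrt (by omega) hC.le hC3.le (abs_nonneg _) ?_ (fun x hx => (a1 x hx).1)
    (fun x hx => (b1 x hx).1) a2 b2 ?_ hL
  · rw [abs_le]; constructor <;> linarith
  · intro x hx
    have k7 := (hg x hx).sub (hh' x hx)
    rcases lt_trichotomy l l' with hll | hll | hll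
    · have k6 := hψ.eventually (o3 l l' x hl1 hll hl2' hx.1.le hx.2.le)
      rw [abs_sub_comm l l', abs_of_pos (show 0 < l' - l by linarith), abs_le]
      constructor
      · refine ge_of_tendsto k7 ?_
        filter_upwards [k6] with k hk
        have : 0 ≤ c3 * (l' - l) := mul_nonneg hc3.le (by linarith)
        have : 0 ≤ C3 * (l' - l) := mul_nonneg hC3.le (by linarith)
        linarith [hk.1]
      · refine le_of_tendsto k7 ?_
        filter_upwards [k6] with k hk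
        linarith [hk.2]
    · subst hll
      have : g x = h x := tendsto_nhds_unique (hg x hx) (hh' x hx)
      rw [this]
      simp
    · have k6 := hψ.eventually (o3 l' l x hl1' hll hl2 hx.1.le hx.2.le)
      rw [abs_of_pos (show 0 < l - l' by linarith), abs_le]
      constructor
      · refine ge_of_tendsto k7 ?_
        filter_upwards [k6] with k hk
        linarith [hk.2]
      · refine le_of_tendsto k7 ?_
        filter_upwards [k6] with k hk
        have : 0 ≤ c3 * (l - l') := mul_nonneg hc3.le (by linarith)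
        have : 0 ≤ C3 * (l - l') := mul_nonneg hC3.le (by linarith)
        linarith [hk.1]

end Pool.Agent.Y197.SD
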