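import Pool.Agent.Y197.SD.Diff
import Pool.Agent.Y845.LR.RSW
import Pool.Agent.Y845.LR.GR

/-!
Second differences of the crossing probabilities of rectangles, part 3: the bounds.
-/

set_option autoImplicit false

namespace Pool.Agent.Y197.SD

open H974 Finset Pool.Agent.W424.AR

theorem al_bound (K : ℕ) (hK : 1 ≤ K) : ∃ C : ℝ, 0 < C ∧ ∀ m h : ℤ, 4 ≤ m → 1 ≤ h →
    h ≤ K * m → al h m ≤ C / m := by
  obtain ⟨c, hc, hd⟩ := rsw_dual (2 * K) (by omega)
  refine ⟨3 / c, by positivity, ?_⟩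
  intro m h hm h1 hhm
  obtain ⟨r, hr⟩ := Int.eq_ofNat_of_zero_le (show 0 ≤ m / 2 by omega)
  have hr1 : (r:ℤ) < m := by omega
  have hr2 : (2:ℤ) ≤ m - r := by omega
  have hr3 : m ≤ 3 * (r:ℤ) := by omega
  have hKm : (h:ℤ) ≤ ((2 * K : ℕ) : ℤ) * (m - r) := by
    have : (K:ℤ) * m ≤ (K:ℤ) * (2 * (m - r)) :=
      mul_le_mul_of_nonneg_left (by omega) (by positivity)
    push_cast
    linarith
  have h2 := hd (m - r) h hr2 (by omega) hKm
  have h3 := al_le (h := h) hr1
  have mr : (m:ℝ) ≤ 3 * r := by exact_mod_cast hr3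
  have mpos : (0:ℝ) < m := by exact_mod_cast (show 0 < m by omega)
  have rpos : (0:ℝ) < r := by linarith
  have a0 := al_nonneg h m
  rw [div_div, le_div_iff₀ (by positivity)]
  have h4 : (r:ℝ) * al h m * c ≤ 1 :=
    (mul_le_mul_of_nonneg_left h2 (by positivity)).trans h3
  have h5 : al h m * (c * m) ≤ al h m * (c * (3 * r)) :=
    mul_le_mul_of_nonneg_left (mul_le_mul_of_nonneg_left mr hc.le) a0
  nlinarith

theorem hh01 (w h : ℤ) : 0 ≤ hh (1/2) w h ∧ hh (1/2) w h ≤ 1 :=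
  ⟨hh_nonneg (by norm_num) (by norm_num) _ _, hh_le_one (by norm_num) (by norm_num) _ _⟩

theorem grow8 : ∃ κ : ℝ, 0 < κ ∧ ∀ n w : ℤ, 1 ≤ n → n ≤ w → ∀ j : ℕ,
    κ ^ j * hh (1/2) w n ≤ hh (1/2) (w + j * n) n := by
  obtain ⟨κ, h0, -, -, -, h3⟩ := Pool.Agent.Y845.LR.GR.main Pool.Agent.Y845.LR.main
  refine ⟨κ, h0, ?_⟩
  intro n w hn hw j
  induction j with
  | zero => simp
  | succ j ih =>
    have h4 := h3 n (w + j * n) hn (by
      have : 0 ≤ (j:ℤ) * n := by positivity
      linarith)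
    have e : w + ((j + 1 : ℕ) : ℤ) * n = w + j * n + n := by push_cast; ring
    rw [e, pow_succ]
    calc κ ^ j * κ * hh (1/2) w n = κ * (κ ^ j * hh (1/2) w n) := by ring
      _ ≤ κ * hh (1/2) (w + j * n) n := mul_le_mul_of_nonneg_left ih h0.le
      _ ≤ _ := h4

/-- **Second differences in the width.** -/
theorem sdW (K : ℕ) (hK : 1 ≤ K) : ∃ C : ℝ, 0 < C ∧ ∀ w h : ℤ, 2 ≤ w → 1 ≤ h → h ≤ K * w →
    |hh (1/2) (w + 1) h - 2 * hh (1/2) w h + hh (1/2) (w - 1) h| ≤
      C * hh (1/2) w h / (h:ℝ) ^ 2 := by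
  obtain ⟨C1, hC1, al1⟩ := al_bound (8 * K) (by omega)
  obtain ⟨c2, hc2, -, rsw2⟩ := rsw 20 (by norm_num)
  obtain ⟨κ, hκ, gr⟩ := grow8
  have hKr : (1:ℝ) ≤ K := by exact_mod_cast hK
  obtain ⟨C, hC⟩ : ∃ C : ℝ, C = 2 * (20 * K) ^ 2 / c2 + (C1 * (8 * K)) ^ 2 / c2 +
    C1 ^ 2 / κ ^ 8 := ⟨_, rfl⟩
  have t1 : 0 < 2 * (20 * (K:ℝ)) ^ 2 / c2 := by positivity
  have t2 : 0 < (C1 * (8 * K)) ^ 2 / c2 := by positivity
  have t3 : 0 < C1 ^ 2 / κ ^ 8 := by positivity
  refine ⟨C, by rw [hC]; positivity, ?_⟩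
  intro w h hw h1 hhw
  have hpos : (0:ℝ) < h := by exact_mod_cast (show 0 < h by omega)
  have hz := hh01 w h
  have trivial_bound : |hh (1/2) (w + 1) h - 2 * hh (1/2) w h + hh (1/2) (w - 1) h| ≤ 2 := by
    have := hh01 (w + 1) h
    have := hh01 (w - 1) h
    rw [abs_le]; constructor <;> linarith
  rcases lt_or_ge w 20 with hsmall | hbig
  · -- small widths
    refine trivial_bound.trans ?_
    have r1 : c2 ≤ hh (1/2) w h := rsw2 w h (by omega) h1 (by push_cast; omega)
    have r2 : (h:ℝ) ≤ 20 * K := by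
      have a1 : (h:ℤ) ≤ K * 20 := hhw.trans (mul_le_mul_of_nonneg_left (by omega) (by positivity))
      have a2 : (h:ℝ) ≤ K * 20 := by exact_mod_cast a1
      linarith
    rw [le_div_iff₀ (by positivity)]
    have r3 : (h:ℝ) ^ 2 ≤ (20 * K) ^ 2 := by gcongr
    have r4 : 2 * (20 * (K:ℝ)) ^ 2 / c2 * c2 ≤ C * hh (1/2) w h := by
      apply mul_le_mul _ r1 hc2.le (by rw [hC]; positivity)
      rw [hC]; linarith
    rw [div_mul_cancel₀ _ hc2.ne'] at r4
    linarith
  · rcases le_or_gt (w + 1) (8 * h) with hcase | hcase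
    · -- bounded aspect ratio
      obtain ⟨m, hm⟩ : ∃ m : ℤ, m = (w + 1) / 4 := ⟨_, rfl⟩
      have h4 := second (m := m) (m' := w + 1 - m) (w := w + 1) (h := h) (by omega) (by omega)
        (by omega)
      have e1 : w + 1 - 1 = w := by ring
      have e2 : w + 1 - 2 = w - 1 := by ring
      have e3 : w + 1 - (w + 1 - m) = m := by ring
      rw [e1, e2, e3] at h4
      have hm8 : w ≤ 8 * m := by omega
      have hhm : h ≤ ((8 * K : ℕ) : ℤ) * m := by
        have : (K:ℤ) * w ≤ (K:ℤ) * (8 * m) := mul_le_mul_of_nonneg_left hm8 (by positivity)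
        push_cast
        linarith
      have h5 := al1 m h (by omega) h1 hhm
      have mpos : (0:ℝ) < m := by exact_mod_cast (show 0 < m by omega)
      have a0 := al_nonneg h m
      have h6 : al h m ≤ C1 * (8 * K) / h := by
        refine h5.trans ?_
        rw [div_le_div_iff₀ mpos hpos]
        have : (h:ℝ) ≤ 8 * K * m := by exact_mod_cast hhm
        nlinarith
      have r1 : c2 ≤ hh (1/2) w h := rsw2 w h (by omega) h1 (by push_cast; omega)
      have hq := hh01 (w + 1 - m - m) h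
      refine h4.trans ?_
      have h7 : al h m * hh (1/2) (w + 1 - m - m) h * al h m ≤ (C1 * (8 * K) / h) ^ 2 := by
        calc al h m * hh (1/2) (w + 1 - m - m) h * al h m ≤ al h m * 1 * al h m := by
              gcongr; exact hq.2
          _ = al h m ^ 2 := by ring
          _ ≤ _ := by gcongr
      refine h7.trans ?_
      rw [div_pow]
      apply div_le_div_of_nonneg_right _ (by positivity)
      have r4 : (C1 * (8 * K)) ^ 2 / c2 * c2 ≤ C * hh (1/2) w h := by
        apply mul_le_mul _ r1 hc2.le (by rw [hC]; positivity)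
        rw [hC]; linarith
      rwa [div_mul_cancel₀ _ hc2.ne'] at r4
    · -- long rectangles
      obtain ⟨m, hm⟩ : ∃ m : ℤ, m = 2 * h + 2 := ⟨_, rfl⟩
      have h4 := second (m := m) (m' := w + 1 - m) (w := w + 1) (h := h) (by omega) (by omega)
        (by omega)
      have e1 : w + 1 - 1 = w := by ring
      have e2 : w + 1 - 2 = w - 1 := by ring
      have e3 : w + 1 - (w + 1 - m) = m := by ring
      rw [e1, e2, e3] at h4
      have hhm : h ≤ ((8 * K : ℕ) : ℤ) * m := by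
        have : (1:ℤ) * h ≤ ((8 * K : ℕ) : ℤ) * m := by
          apply mul_le_mul (by push_cast; omega) (by omega) (by omega) (by positivity)
        linarith
      have h5 := al1 m h (by omega) h1 hhm
      have mpos : (0:ℝ) < m := by exact_mod_cast (show 0 < m by omega)
      have a0 := al_nonneg h m
      have h6 : al h m ≤ C1 / h := by
        refine h5.trans ?_
        apply div_le_div_of_nonneg_left hC1.le hpos
        exact_mod_cast (show h ≤ m by omega)
      have g1 := gr h (w + 1 - m - m) h1 (by omega) 8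
      have g2 : hh (1/2) (w + 1 - m - m + (8:ℕ) * h) h ≤ hh (1/2) w h :=
        hh_mono (by norm_num) (by norm_num) (by omega) (by push_cast; omega) le_rfl
      have hq := hh01 (w + 1 - m - m) h
      have h8 : hh (1/2) (w + 1 - m - m) h ≤ hh (1/2) w h / κ ^ 8 := by
        rw [le_div_iff₀ (by positivity)]
        calc hh (1/2) (w + 1 - m - m) h * κ ^ 8 = κ ^ 8 * hh (1/2) (w + 1 - m - m) h := by ring
          _ ≤ _ := g1.trans g2
      refine h4.trans ?_
      have q1 : 0 ≤ C1 / h := by positivity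
      have q2 : 0 ≤ hh (1/2) w h / κ ^ 8 := div_nonneg hz.1 (by positivity)
      calc al h m * hh (1/2) (w + 1 - m - m) h * al h m
          ≤ C1 / h * (hh (1/2) w h / κ ^ 8) * (C1 / h) :=
            mul_le_mul (mul_le_mul h6 h8 hq.1 q1) h6 a0 (mul_nonneg q1 q2)
        _ = C1 ^ 2 / κ ^ 8 * hh (1/2) w h / (h:ℝ) ^ 2 := by
            field_simp
        _ ≤ _ := by
            apply div_le_div_of_nonneg_right _ (by positivity)
            apply mul_le_mul_of_nonneg_right _ hz.1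
            rw [hC]; linarith

/-- **Second differences in the height.** -/
theorem sdH (K : ℕ) (hK : 1 ≤ K) : ∃ C : ℝ, 0 < C ∧ ∀ w h : ℤ, 2 ≤ w → 1 ≤ h → w ≤ K * h →
    |hh (1/2) w (h + 1) - 2 * hh (1/2) w h + hh (1/2) w (h - 1)| ≤
      C * (1 - hh (1/2) w h) / (w:ℝ) ^ 2 := by
  obtain ⟨C, hC, hs⟩ := sdW K hK
  refine ⟨4 * C, by positivity, ?_⟩
  intro w h hw h1 hwh
  have d1 := dualhalf (w := w) (h := h) (by omega) (by omega)
  have d2 := dualhalf (w := w) (h := h + 1) (by omega) (by omega)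
  have d3 := dualhalf (w := w) (h := h - 1) (by omega) (by omega)
  have h2 := hs (h + 1) (w - 1) (by omega) (by omega) (by
    have : (K:ℤ) * h ≤ K * (h + 1) := mul_le_mul_of_nonneg_left (by omega) (by positivity)
    linarith)
  have e1 : h + 1 - 1 = h := by ring
  have e2 : h - 1 + 1 = h := by ring
  rw [e1] at h2
  rw [e2] at d3
  rw [← d1, ← d2, ← d3] at h2
  have e3 : hh (1/2) w (h + 1) - 2 * hh (1/2) w h + hh (1/2) w (h - 1) =
      -(1 - hh (1/2) w (h + 1) - 2 * (1 - hh (1/2) w h) + (1 - hh (1/2) w (h - 1))) := by ring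
  rw [e3, abs_neg]
  refine h2.trans ?_
  have wr : (2:ℝ) ≤ w := by exact_mod_cast hw
  have p1 : 0 ≤ 1 - hh (1/2) w h := by have := hh01 w h; linarith
  push_cast
  rw [div_le_div_iff₀ (by nlinarith) (by positivity)]
  have p2 : (w:ℝ) ^ 2 ≤ 4 * (w - 1) ^ 2 := by nlinarith
  have p3 : 0 ≤ C * (1 - hh (1/2) w h) := by positivity
  nlinarith

end Pool.Agent.Y197.SD
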