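import Pool.Agent.W424.AR.Bdd
import Pool.Agent.H974R2.BK
import Pool.Agent.H974R2.RSW2

/-!
Second differences of the crossing probabilities of rectangles, part 1: a macroscopic cluster whose
leftmost column is a given one.
-/

set_option autoImplicit false

namespace Pool.Agent.Y197.SD

open H974 Finset Pool.Agent.W424.AR

/-- A cluster of the box `[a, m] × [0, h]` touches the columns `a + 1` and `m`, but not the
column `a`. -/
def AL (h a m : ℤ) (F : Finset Edg) : Prop :=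
  ∃ y z, (0 ≤ y ∧ y ≤ h) ∧ (0 ≤ z ∧ z ≤ h) ∧
    Reach (↑F ∩ ↑(RE (a + 1) m 0 h)) (a + 1, y) (m, z) ∧
    ∀ x, ¬ Reach (↑F ∩ ↑(RE a m 0 h)) (a, x) (m, z)

theorem RE_sub {a b a' b' h : ℤ} (h1 : a' ≤ a) (h2 : b ≤ b') : RE a b 0 h ⊆ RE a' b' 0 h :=
  RE_subset h1 h2 le_rfl le_rfl

theorem cap_sub {F : Finset Edg} {a b a' b' h : ℤ} (h1 : a' ≤ a) (h2 : b ≤ b') :
    (↑F : Set Edg) ∩ ↑(RE a b 0 h) ⊆ ↑F ∩ ↑(RE a' b' 0 h) :=
  Set.inter_subset_inter_right _ (by exact_mod_cast RE_sub h1 h2)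

theorem sub_LR' {F : Finset Edg} {A B a b h : ℤ} (hab : a < b) (_hA : A ≤ a)
    (_hB : b ≤ B) {u v : Vtx} (hr : Reach (↑F ∩ ↑(RE A B 0 h)) u v) (hu : u.1 ≤ a) (hv : b ≤ v.1) :
    ∃ y1 y2, (0 ≤ y1 ∧ y1 ≤ h) ∧ (0 ≤ y2 ∧ y2 ≤ h) ∧
      Reach (↑F ∩ ↑(LRE a b 0 h)) (a, y1) (b, y2) ∧
      Reach (↑F ∩ ↑(RE A B 0 h)) u (a, y1) ∧ Reach (↑F ∩ ↑(RE A B 0 h)) u (b, y2) := by
  obtain ⟨y1, y2, k1, k2, k3, k4⟩ := sub_LR (a := a) (b := b) (c := 0) (d := h) hab
    (by rintro x y ⟨-, h⟩ _ _; simp only [mem_coe, mem_RE_true] at h; omega)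
    (by rintro x y ⟨-, h⟩ _ _; simp only [mem_coe, mem_RE_false] at h; omega) hr hu hv
  refine ⟨y1, y2, k1, k2, k3.mono ?_, k4, k4.trans (k3.mono ?_)⟩
  · rintro e ⟨⟨h7, -⟩, h8⟩; exact ⟨h7, h8⟩
  · rintro e ⟨h7, -⟩; exact h7

/-- A path from the right which reaches the column `c` does so inside `[c, m]`. -/
theorem hit_col {F : Finset Edg} {a m h c : ℤ} (_hac : a ≤ c) {u v : Vtx}
    (hr : Reach (↑F ∩ ↑(RE a m 0 h)) u v) (hu : c < u.1) (hv : v.1 ≤ c) :
    ∃ x, Reach (↑F ∩ ↑(RE c m 0 h)) u (c, x) := by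
  obtain ⟨v', w', h1, h2, h3, h4⟩ := first_hit (T := fun v : Vtx => v.1 ≤ c) hr
    (by simpa using hu) hv
  obtain ⟨e, ⟨heF, heR⟩, hcase⟩ := h3
  have hsub : (↑F ∩ ↑(RE a m 0 h)) ∩ {e : Edg | ¬ (src e).1 ≤ c ∧ ¬ (tgt e).1 ≤ c} ⊆
      ↑F ∩ ↑(RE c m 0 h) := by
    rintro ⟨x, y, _ | _⟩ ⟨⟨k1, k2⟩, k3, k4⟩
    · refine ⟨k1, ?_⟩
      simp only [mem_coe, mem_RE_false, src_mk] at k2 k3 ⊢
      omega
    · refine ⟨k1, ?_⟩
      simp only [mem_coe, mem_RE_true, src_mk] at k2 k3 ⊢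
      omega
  have hp := h1.mono hsub
  obtain ⟨x, y, bo⟩ := e
  have hw : w'.1 = c ∧ Adj (↑F ∩ ↑(RE c m 0 h)) v' w' := by
    cases bo
    · simp only [mem_coe, mem_RE_false] at heR
      simp only [src_mk, tgt_false] at hcase
      rcases hcase with ⟨e1, e2⟩ | ⟨e1, e2⟩ <;> subst e1 <;> subst e2 <;>
        simp only at h2 h4 <;> omega
    · simp only [mem_coe, mem_RE_true] at heR
      have hcase' := hcase
      simp only [src_mk, tgt_true] at hcase
      rcases hcase with ⟨e1, e2⟩ | ⟨e1, e2⟩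
      · subst e1; subst e2
        simp only at h2 h4
        omega
      · subst e1; subst e2
        simp only at h2 h4
        refine ⟨by simp only; omega, ⟨(x, y, true), ⟨heF, ?_⟩, hcase'⟩⟩
        simp only [mem_coe, mem_RE_true]
        omega
  refine ⟨w'.2, ?_⟩
  have : (c, w'.2) = w' := by rw [← hw.1]
  rw [this]
  exact hp.trans hw.2.reach

theorem AL_mono {h a b b' : ℤ} {F : Finset Edg} (h1 : a + 1 < b') (h2 : b' ≤ b)
    (hA : AL h a b F) : AL h a b' F := by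
  obtain ⟨y, z, hy, hz, hr, hn⟩ := hA
  obtain ⟨y1, y2, k1, k2, k3, k4, k5⟩ := sub_LR' (A := a + 1) (B := b) h1 le_rfl h2 hr le_rfl h2
  refine ⟨y1, y2, k1, k2, k3.mono ?_, ?_⟩
  · exact Set.inter_subset_inter_right _ (by exact_mod_cast LRE_subset_RE)
  · intro x hx
    apply hn x
    refine (hx.mono (cap_sub le_rfl h2)).trans ?_
    exact (k5.symm.trans hr).mono (cap_sub (by omega) le_rfl)

/-- `k` disjoint crossings. -/
def MD (r m h : ℤ) : ℕ → Finset Edg → Prop
  | 0, _ => True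
  | k + 1, F => DisjOcc (LRc r m 0 h) (MD r m h k) F

theorem MD_mono {r m h : ℤ} (k : ℕ) {F G : Finset Edg} (hFG : F ⊆ G) (hF : MD r m h k F) :
    MD r m h k G := by
  cases k with
  | zero => trivial
  | succ k =>
    obtain ⟨K, L, h1, h2, h3⟩ := hF
    exact ⟨K, L, h1.trans hFG, h2.trans hFG, h3⟩

theorem MD_incr (S : Finset Edg) (r m h : ℤ) (k : ℕ) : IncrE S (MD r m h k) :=
  fun _ _ h1 _ h3 => MD_mono k h1 h3

theorem MD_succ {r m h : ℤ} (k : ℕ) {F : Finset Edg} (hF : MD r m h (k + 1) F) :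
    MD r m h k F := by
  obtain ⟨K, L, h1, h2, h3, h4, h5⟩ := hF
  exact MD_mono k h2 h5

theorem MD_le {r m h : ℤ} {k l : ℕ} (hkl : k ≤ l) {F : Finset Edg} (hF : MD r m h l F) :
    MD r m h k F := by
  induction l with
  | zero => obtain rfl : k = 0 := by omega
            exact hF
  | succ l ih =>
    rcases Nat.lt_or_ge l k with h1 | h1
    · obtain rfl : k = l + 1 := by omega
      exact hF
    · exact ih h1 (MD_succ l hF)

theorem pr_MD {r m h : ℤ} {S : Finset Edg} (hS : LRE r m 0 h ⊆ S) (k : ℕ) :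
    Pr (fun _ => (1/2 : ℝ)) S (MD r m h k) ≤ hh (1/2) (m - r) h ^ k := by
  have ok : Ok (fun _ : Edg => (1/2 : ℝ)) := okq (by norm_num) (by norm_num)
  induction k with
  | zero =>
    simp only [pow_zero]
    exact Pr_le_one ok _ _
  | succ k ih =>
    have h1 : Pr (fun _ => (1/2 : ℝ)) S (MD r m h (k + 1)) ≤
        Pr (fun _ => (1/2 : ℝ)) S (LRc r m 0 h) * Pr (fun _ => (1/2 : ℝ)) S (MD r m h k) :=
      bk ok (LRc_incr S r m 0 h) (MD_incr S r m h k)
    rw [pr_LRc (1/2) hS] at h1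
    have h2 : hh (1/2) (m - r) (h - 0) = hh (1/2) (m - r) h := by rw [sub_zero]
    rw [h2] at h1
    rw [pow_succ, mul_comm]
    exact h1.trans (mul_le_mul_of_nonneg_left ih (hh_nonneg (by norm_num) (by norm_num) _ _))

theorem restrict {G G' : Set Edg} (hG : G ⊆ G') {t u v : Vtx} (hu : Reach G' u t)
    (h : Reach G u v) : Reach (G ∩ {e | Reach G' (src e) t}) u v := by
  have key : ∀ w, Reach G u w → Reach G' w t ∧ Reach (G ∩ {e | Reach G' (src e) t}) u w := by
    intro w hw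
    induction hw with
    | refl => exact ⟨hu, Reach.refl _ _⟩
    | @tail w w' _ hs ih =>
      obtain ⟨e, he, hcase⟩ := hs
      have hadj : Adj G w w' := ⟨e, he, hcase⟩
      have hw' : Reach G' w' t := (hadj.mono hG).reach.symm.trans ih.1
      refine ⟨hw', ih.2.trans (Adj.reach ⟨e, ⟨he, ?_⟩, hcase⟩)⟩
      rcases hcase with ⟨h1, h2⟩ | ⟨h1, h2⟩
      · show Reach G' (src e) t
        rw [h1]; exact ih.1
      · show Reach G' (src e) t
        rw [h1]; exact hw'
  exact (key v h).2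

open Classical in
/-- The columns in `J` at which a cluster starts give disjoint crossings. -/
theorem MD_of_AL {r m h : ℤ} (hrm : r < m) (F : Finset Edg) (J : Finset ℤ)
    (hJ : ∀ j ∈ J, (0 ≤ j ∧ j < r) ∧ AL h j m F) : MD r m h J.card F := by
  choose! zz hzz using fun j => fun (hj : AL h j m F) =>
    (show ∃ z, ∃ y, (0 ≤ y ∧ y ≤ h) ∧ (0 ≤ z ∧ z ≤ h) ∧
      Reach (↑F ∩ ↑(RE (j + 1) m 0 h)) (j + 1, y) (m, z) ∧
      ∀ x, ¬ Reach (↑F ∩ ↑(RE j m 0 h)) (j, x) (m, z) by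
        obtain ⟨y, z, h1⟩ := hj
        exact ⟨z, y, h1⟩)
  set KJ : ℤ → Finset Edg := fun j =>
    F.filter (fun e => Reach (↑F ∩ ↑(RE j m 0 h)) (src e) (m, zz j)) with hKJ
  -- disjointness
  have disj : ∀ j ∈ J, ∀ j' ∈ J, j < j' → Disjoint (KJ j) (KJ j') := by
    intro j hj j' hj' hlt
    rw [Finset.disjoint_left]
    intro e h1 h2
    simp only [hKJ, Finset.mem_filter] at h1 h2
    obtain ⟨y, hy, -, hr, -⟩ := hzz j (hJ j hj).2
    obtain ⟨-, -, -, -, hn'⟩ := hzz j' (hJ j' hj').2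
    have p1 : Reach (↑F ∩ ↑(RE j m 0 h)) (m, zz j') (j + 1, y) :=
      ((h2.2.mono (cap_sub hlt.le le_rfl)).symm.trans h1.2).trans
        (hr.mono (cap_sub (by omega) le_rfl)).symm
    have hj'2 := (hJ j' hj').1
    obtain ⟨x, hx⟩ := hit_col (c := j') hlt.le p1 (by simp only; omega) (by simp only; omega)
    exact hn' x hx.symm
  -- crossings
  have cross : ∀ j ∈ J, LRc r m 0 h (KJ j) := by
    intro j hj
    obtain ⟨y, hy, -, hr, -⟩ := hzz j (hJ j hj).2
    have hj2 := (hJ j hj).1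
    obtain ⟨y1, y2, k1, k2, k3, k4, k5⟩ := sub_LR' (A := j + 1) (B := m) hrm (by omega) le_rfl
      hr (by simp only; omega) le_rfl
    refine ⟨y1, y2, k1, k2, ?_⟩
    have k6 : Reach (↑F ∩ ↑(RE j m 0 h)) (r, y1) (m, zz j) :=
      (k4.symm.trans hr).mono (cap_sub (by omega) le_rfl)
    have k7 := restrict (G := ↑F ∩ ↑(LRE r m 0 h)) (G' := ↑F ∩ ↑(RE j m 0 h)) (by
      refine Set.inter_subset_inter_right _ ?_
      have := (LRE_subset_RE (a := r) (b := m) (c := 0) (d := h)).trans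
        (RE_sub (h := h) (show j ≤ r by omega) (le_refl m))
      exact_mod_cast this) k6 k3
    refine k7.mono ?_
    rintro e ⟨⟨g1, g2⟩, g3⟩
    refine ⟨?_, g2⟩
    simp only [hKJ, Finset.coe_filter]
    exact ⟨g1, g3⟩
  -- induction
  have main : ∀ J' : Finset ℤ, J' ⊆ J → MD r m h J'.card (J'.biUnion KJ) := by
    intro J'
    induction J' using Finset.induction_on with
    | empty => intro _; trivial
    | @insert j J' hj ih =>
      intro hsub
      rw [Finset.card_insert_of_notMem hj, Finset.biUnion_insert]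
      refine ⟨KJ j, J'.biUnion KJ, Finset.subset_union_left, Finset.subset_union_right, ?_,
        cross j (hsub (Finset.mem_insert_self _ _)),
        ih (fun x hx => hsub (Finset.mem_insert_of_mem hx))⟩
      rw [Finset.disjoint_biUnion_right]
      intro j' hj'
      have hne : j ≠ j' := by rintro rfl; exact hj hj'
      have m1 : j ∈ J := hsub (Finset.mem_insert_self _ _)
      have m2 : j' ∈ J := hsub (Finset.mem_insert_of_mem hj')
      rcases lt_or_gt_of_ne hne with hlt | hlt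
      · exact disj j m1 j' m2 hlt
      · exact (disj j' m2 j m1 hlt).symm
  refine MD_mono _ ?_ (main J (Finset.Subset.refl _))
  intro e he
  rw [Finset.mem_biUnion] at he
  obtain ⟨j, -, he⟩ := he
  exact (Finset.mem_filter.mp he).1

/-- The sum over the starting column. -/
theorem sum_AL {r : ℕ} {m h : ℤ} (hrm : (r:ℤ) < m) {S : Finset Edg} (hS : LRE r m 0 h ⊆ S) :
    (∑ j ∈ Finset.range r, Pr (fun _ => (1/2 : ℝ)) S (AL h j m)) *
      (1 - hh (1/2) (m - r) h) ≤ 1 := by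
  classical
  have ok : Ok (fun _ : Edg => (1/2 : ℝ)) := okq (by norm_num) (by norm_num)
  set f := hh (1/2) (m - r) h with hf
  have f0 : 0 ≤ f := hh_nonneg (by norm_num) (by norm_num) _ _
  have f1 : f ≤ 1 := hh_le_one (by norm_num) (by norm_num) _ _
  have pw : ∀ F : Finset Edg, ∑ j ∈ Finset.range r, ind (AL h j m F) ≤
      ∑ k ∈ Finset.range r, ind (MD r m h (k + 1) F) := by
    intro F
    set J : Finset ℕ := (Finset.range r).filter (fun j : ℕ => AL h j m F) with hJ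
    have e1 : ∑ j ∈ Finset.range r, ind (AL h j m F) = (J.card : ℝ) := by
      rw [hJ, Finset.card_filter]
      push_cast
      apply Finset.sum_congr rfl
      intro j _
      by_cases hA : AL h j m F
      · rw [ind_of hA, if_pos hA]
      · rw [ind_not_of hA, if_neg hA]
    have hcard : J.card ≤ r := by
      calc J.card ≤ (Finset.range r).card := Finset.card_filter_le _ _
        _ = r := Finset.card_range r
    have hMD : MD r m h J.card F := by
      have := MD_of_AL hrm F (J.map ⟨fun j : ℕ => (j : ℤ), Nat.cast_injective⟩) (by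
        intro j hj
        rw [Finset.mem_map] at hj
        obtain ⟨i, hi, rfl⟩ := hj
        rw [hJ, Finset.mem_filter, Finset.mem_range] at hi
        refine ⟨⟨by simp, ?_⟩, hi.2⟩
        show (i:ℤ) < r
        exact_mod_cast hi.1)
      rwa [Finset.card_map] at this
    rw [e1]
    calc (J.card : ℝ) = ∑ k ∈ Finset.range J.card, (1 : ℝ) := by simp
      _ ≤ ∑ k ∈ Finset.range J.card, ind (MD r m h (k + 1) F) := by
          apply Finset.sum_le_sum
          intro k hk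
          rw [Finset.mem_range] at hk
          rw [ind_of (MD_le (by omega) hMD)]
      _ ≤ ∑ k ∈ Finset.range r, ind (MD r m h (k + 1) F) := by
          apply Finset.sum_le_sum_of_subset_of_nonneg
          · intro x hx; rw [Finset.mem_range] at *; omega
          · intro _ _ _; exact ind_nonneg _
  have e2 : ∑ j ∈ Finset.range r, Pr (fun _ => (1/2 : ℝ)) S (AL h j m) ≤
      ∑ k ∈ Finset.range r, f ^ (k + 1) := by
    calc ∑ j ∈ Finset.range r, Pr (fun _ => (1/2 : ℝ)) S (AL h j m)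
        = Ex (fun _ => (1/2 : ℝ)) S (fun F => ∑ j ∈ Finset.range r, ind (AL h j m F)) := by
          rw [Ex_sum]; rfl
      _ ≤ Ex (fun _ => (1/2 : ℝ)) S (fun F => ∑ k ∈ Finset.range r, ind (MD r m h (k + 1) F)) :=
          Ex_mono ok (fun F _ => pw F)
      _ = ∑ k ∈ Finset.range r, Pr (fun _ => (1/2 : ℝ)) S (MD r m h (k + 1)) := by
          rw [Ex_sum]; rfl
      _ ≤ _ := Finset.sum_le_sum (fun k _ => pr_MD hS (k + 1))
  have e3 : (∑ k ∈ Finset.range r, f ^ (k + 1)) * (1 - f) ≤ 1 := by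
    have e4 : ∑ k ∈ Finset.range r, f ^ (k + 1) = f * ∑ k ∈ Finset.range r, f ^ k := by
      rw [Finset.mul_sum]
      exact Finset.sum_congr rfl (fun k _ => by ring)
    have e5 := mul_neg_geom_sum f r
    rw [e4]
    have e6 : f * (∑ k ∈ Finset.range r, f ^ k) * (1 - f) = f * (1 - f ^ r) := by
      rw [← e5]; ring
    rw [e6]
    have e7 : 0 ≤ f ^ r := pow_nonneg f0 r
    nlinarith
  exact (mul_le_mul_of_nonneg_right e2 (by linarith)).trans e3

end Pool.Agent.Y197.SD
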