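import Pool.Agent.Y197.SD.Arm

/-!
Second differences of the crossing probabilities of rectangles, part 2.
-/

set_option autoImplicit false

namespace Pool.Agent.Y197.SD

open H974 Finset Pool.Agent.W424.AR

theorem ok2 : Ok (fun _ : Edg => (1/2 : ℝ)) := okq (by norm_num) (by norm_num)

theorem cap_cap {F S T : Finset Edg} (hT : T ⊆ S) :
    ((↑(F ∩ S) : Set Edg) ∩ ↑T) = ↑F ∩ ↑T := coe_inter_eq hT

theorem AL_local {h a m : ℤ} {F S : Finset Edg} (hS : RE a m 0 h ⊆ S) :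
    AL h a m F ↔ AL h a m (F ∩ S) := by
  unfold AL
  rw [cap_cap hS, cap_cap ((RE_sub (show a ≤ a + 1 by omega) le_rfl).trans hS)]

theorem im_cap (g : LSym) (F : Finset Edg) (a b c d a' b' c' d' : ℤ)
    (h : g.mp (RE a b c d) = RE a' b' c' d') :
    g.φ '' ((↑F : Set Edg) ∩ ↑(RE a b c d)) = ↑(g.mp F) ∩ ↑(RE a' b' c' d') := by
  rw [LSym.image_inter, h]

theorem AL_trl {h a m s : ℤ} {F : Finset Edg} :
    AL h (a + s) (m + s) ((trl s 0).mp F) ↔ AL h a m F := by
  have e1 := im_cap (trl s 0) F (a + 1) m 0 h (a + 1 + s) (m + s) (0 + 0) (h + 0) (trl_RE s 0 _ _ _ _)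
  have e2 := im_cap (trl s 0) F a m 0 h (a + s) (m + s) (0 + 0) (h + 0) (trl_RE s 0 _ _ _ _)
  simp only [add_zero] at e1 e2
  unfold AL
  have k1 : a + s + 1 = a + 1 + s := by ring
  rw [k1, ← e1, ← e2]
  have p1 : ∀ y z : ℤ, Reach ((trl s 0).φ '' (↑F ∩ ↑(RE (a + 1) m 0 h))) (a + 1 + s, y) (m + s, z) ↔
      Reach (↑F ∩ ↑(RE (a + 1) m 0 h)) (a + 1, y) (m, z) := by
    intro y z
    have := (trl s 0).reach_iff (F := ↑F ∩ ↑(RE (a + 1) m 0 h)) (u := (a + 1, y)) (v := (m, z))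
    simpa using this
  have p2 : ∀ x z : ℤ, Reach ((trl s 0).φ '' (↑F ∩ ↑(RE a m 0 h))) (a + s, x) (m + s, z) ↔
      Reach (↑F ∩ ↑(RE a m 0 h)) (a, x) (m, z) := by
    intro y z
    have := (trl s 0).reach_iff (F := ↑F ∩ ↑(RE a m 0 h)) (u := (a, y)) (v := (m, z))
    simpa using this
  simp only [p1, p2]

/-- The probability of the cluster event in a window of width `m`. -/
noncomputable def al (h m : ℤ) : ℝ := Pr (fun _ => (1/2 : ℝ)) (RE 0 m 0 h) (AL h 0 m)

theorem al_nonneg (h m : ℤ) : 0 ≤ al h m := Pr_nonneg ok2 _ _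

theorem pr_AL {h a m : ℤ} {S : Finset Edg} (hS : RE a m 0 h ⊆ S) :
    Pr (fun _ => (1/2 : ℝ)) S (AL h a m) = al h (m - a) := by
  have e0 := Pr_local (p := fun _ => (1/2 : ℝ)) hS (A := AL h a m)
    (fun F _ => AL_local (h := h) (a := a) (m := m) (F := F) (S := RE a m 0 h)
      (Finset.Subset.refl _))
  rw [e0]
  have e1 : RE a m 0 h = (trl a 0).mp (RE 0 (m - a) 0 h) := by
    rw [trl_RE]
    simp only [zero_add, sub_add_cancel, add_zero]
  rw [e1, LSym.pr]
  unfold al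
  apply Pr_congr
  intro F _
  have := AL_trl (h := h) (a := 0) (m := m - a) (s := a) (F := F)
  rw [zero_add, sub_add_cancel] at this
  exact this

theorem al_mono {h m m' : ℤ} (h1 : 1 < m') (h2 : m' ≤ m) : al h m ≤ al h m' := by
  have e1 : al h m' = Pr (fun _ => (1/2 : ℝ)) (RE 0 m 0 h) (AL h 0 m') := by
    rw [pr_AL (RE_sub le_rfl h2), sub_zero]
  rw [e1]
  unfold al
  apply Pr_mono ok2
  intro F _ hF
  exact AL_mono (by omega) h2 hF

/-- The main bound. -/
theorem al_le {h m : ℤ} {r : ℕ} (hrm : (r:ℤ) < m) :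
    (r:ℝ) * al h m * (1 - hh (1/2) (m - r) h) ≤ 1 := by
  have h1 := sum_AL (h := h) hrm (S := RE 0 m 0 h)
    (LRE_subset_RE.trans (RE_sub (by omega) le_rfl))
  have f1 : 0 ≤ 1 - hh (1/2) (m - r) h := by
    have := hh_le_one (q := 1/2) (by norm_num) (by norm_num) (m - r) h
    linarith
  refine le_trans (mul_le_mul_of_nonneg_right ?_ f1) h1
  calc (r:ℝ) * al h m = ∑ j ∈ Finset.range r, al h m := by simp
    _ ≤ _ := by
      apply Finset.sum_le_sum
      intro j hj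
      rw [Finset.mem_range] at hj
      rw [pr_AL (RE_sub (by omega) le_rfl)]
      exact al_mono (by omega) (by omega)

/-- The mirror image of `AL`. -/
def AR (h m w : ℤ) (F : Finset Edg) : Prop :=
  ∃ y z, (0 ≤ y ∧ y ≤ h) ∧ (0 ≤ z ∧ z ≤ h) ∧
    Reach (↑F ∩ ↑(RE m (w - 1) 0 h)) (w - 1, y) (m, z) ∧
    ∀ x, ¬ Reach (↑F ∩ ↑(RE m w 0 h)) (w, x) (m, z)

theorem AR_local {h m w : ℤ} {F S : Finset Edg} (hS : RE m w 0 h ⊆ S) :
    AR h m w F ↔ AR h m w (F ∩ S) := by
  unfold AR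
  rw [cap_cap hS, cap_cap ((RE_sub le_rfl (show w - 1 ≤ w by omega)).trans hS)]

theorem AR_rfx {h m w : ℤ} {F : Finset Edg} :
    AR h m w ((rfx w).mp F) ↔ AL h 0 (w - m) F := by
  have e1 := im_cap (rfx w) F (0 + 1) (w - m) 0 h (w - (w - m)) (w - (0 + 1)) 0 h
    (rfx_RE w _ _ _ _)
  have e2 := im_cap (rfx w) F 0 (w - m) 0 h (w - (w - m)) (w - 0) 0 h (rfx_RE w _ _ _ _)
  unfold AR AL
  have k1 : w - (w - m) = m := by ring
  have k2 : w - (0 + 1) = w - 1 := by ring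
  rw [k1, k2] at e1
  rw [k1, sub_zero] at e2
  rw [← e1, ← e2]
  have p1 : ∀ y z : ℤ, Reach ((rfx w).φ '' (↑F ∩ ↑(RE (0 + 1) (w - m) 0 h))) (w - 1, y) (m, z) ↔
      Reach (↑F ∩ ↑(RE (0 + 1) (w - m) 0 h)) (0 + 1, y) (w - m, z) := by
    intro y z
    have := (rfx w).reach_iff (F := ↑F ∩ ↑(RE (0 + 1) (w - m) 0 h)) (u := (0 + 1, y))
      (v := (w - m, z))
    simpa using this
  have p2 : ∀ x z : ℤ, Reach ((rfx w).φ '' (↑F ∩ ↑(RE 0 (w - m) 0 h))) (w, x) (m, z) ↔
      Reach (↑F ∩ ↑(RE 0 (w - m) 0 h)) (0, x) (w - m, z) := by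
    intro y z
    have := (rfx w).reach_iff (F := ↑F ∩ ↑(RE 0 (w - m) 0 h)) (u := (0, y))
      (v := (w - m, z))
    simpa using this
  simp only [p1, p2]

theorem pr_AR {h m w : ℤ} {S : Finset Edg} (hS : RE m w 0 h ⊆ S) :
    Pr (fun _ => (1/2 : ℝ)) S (AR h m w) = al h (w - m) := by
  have e0 := Pr_local (p := fun _ => (1/2 : ℝ)) hS (A := AR h m w)
    (fun F _ => AR_local (h := h) (m := m) (w := w) (F := F) (S := RE m w 0 h)
      (Finset.Subset.refl _))
  rw [e0]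
  have e1 : RE m w 0 h = (rfx w).mp (RE 0 (w - m) 0 h) := by
    rw [rfx_RE]
    simp only [sub_sub_cancel, sub_zero]
  rw [e1, LSym.pr]
  unfold al
  apply Pr_congr
  intro F _
  exact AR_rfx

/-- Crossing events in terms of all edges of the box. -/
theorem LRc_iff' {F : Finset Edg} {a b h : ℤ} (hab : a < b) :
    LRc a b 0 h F ↔ ∃ x z, (0 ≤ x ∧ x ≤ h) ∧ (0 ≤ z ∧ z ≤ h) ∧
      Reach (↑F ∩ ↑(RE a b 0 h)) (a, x) (b, z) := by
  constructor
  · rintro ⟨x, z, h1, h2, h3⟩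
    exact ⟨x, z, h1, h2, h3.mono (Set.inter_subset_inter_right _
      (by exact_mod_cast LRE_subset_RE))⟩
  · rintro ⟨x, z, -, -, h3⟩
    exact LRc_of_reach hab h3 rfl rfl

/-- The end point of a path of the box with an edge is in the box. -/
theorem left_arm {F : Finset Edg} {a b m h : ℤ} (h1 : a + 1 < m) (h2 : m ≤ b) {x z : ℤ}
    (hr : Reach (↑F ∩ ↑(RE (a + 1) b 0 h)) (a + 1, x) (b, z))
    (hn : ∀ x', (0 ≤ x' ∧ x' ≤ h) → ¬ Reach (↑F ∩ ↑(RE a b 0 h)) (a, x') (b, z)) :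
    AL h a m F := by
  obtain ⟨y1, y2, k1, k2, k3, k4, k5⟩ := sub_LR' (A := a + 1) (B := b) h1 le_rfl h2 hr le_rfl h2
  refine ⟨y1, y2, k1, k2, k3.mono ?_, ?_⟩
  · exact Set.inter_subset_inter_right _ (by exact_mod_cast LRE_subset_RE)
  · intro x' hx
    have hr2 : Reach (↑F ∩ ↑(RE a b 0 h)) (a, x') (b, z) := by
      refine (hx.mono (cap_sub le_rfl h2)).trans ?_
      exact (k5.symm.trans hr).mono (cap_sub (by omega) le_rfl)
    have hin : 0 ≤ x' ∧ x' ≤ h := by
      rcases Relation.ReflTransGen.cases_head hx with heq | ⟨c, hc, -⟩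
      · have := congrArg Prod.fst heq
        simp only at this
        omega
      · obtain ⟨⟨p, q, bo⟩, ⟨-, hR⟩, hcase⟩ := hc
        cases bo
        · simp only [mem_coe, mem_RE_false] at hR
          simp only [src_mk, tgt_false, Prod.mk.injEq] at hcase
          rcases hcase with ⟨e1, -⟩ | ⟨-, e1⟩ <;> omega
        · simp only [mem_coe, mem_RE_true] at hR
          simp only [src_mk, tgt_true, Prod.mk.injEq] at hcase
          rcases hcase with ⟨e1, -⟩ | ⟨-, e1⟩ <;> omega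
    exact hn x' hin hr2

theorem right_arm {F : Finset Edg} {a m b h : ℤ} (h1 : m + 1 < b) (h2 : a ≤ m) {x z : ℤ}
    (hr : Reach (↑F ∩ ↑(RE a (b - 1) 0 h)) (a, x) (b - 1, z))
    (hn : ∀ x', (0 ≤ x' ∧ x' ≤ h) → ¬ Reach (↑F ∩ ↑(RE a b 0 h)) (a, x) (b, x')) :
    AR h m b F := by
  obtain ⟨y1, y2, k1, k2, k3, k4, k5⟩ := sub_LR' (A := a) (B := b - 1) (a := m) (b := b - 1)
    (by omega) h2 le_rfl hr h2 le_rfl
  refine ⟨y2, y1, k2, k1, ?_, ?_⟩
  · refine Reach.symm (k3.mono ?_)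
    exact Set.inter_subset_inter_right _ (by exact_mod_cast LRE_subset_RE)
  · intro x' hx
    have hr2 : Reach (↑F ∩ ↑(RE a b 0 h)) (a, x) (b, x') :=
      (k4.mono (cap_sub le_rfl (by omega))).trans (hx.mono (cap_sub h2 le_rfl)).symm
    have hin : 0 ≤ x' ∧ x' ≤ h := by
      rcases Relation.ReflTransGen.cases_head hx with heq | ⟨c, hc, -⟩
      · have := congrArg Prod.fst heq
        simp only at this
        omega
      · obtain ⟨⟨p, q, bo⟩, ⟨-, hR⟩, hcase⟩ := hc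
        cases bo
        · simp only [mem_coe, mem_RE_false] at hR
          simp only [src_mk, tgt_false, Prod.mk.injEq] at hcase
          rcases hcase with ⟨e1, -⟩ | ⟨-, e1⟩ <;> omega
        · simp only [mem_coe, mem_RE_true] at hR
          simp only [src_mk, tgt_true, Prod.mk.injEq] at hcase
          rcases hcase with ⟨e1, -⟩ | ⟨-, e1⟩ <;> omega
    exact hn x' hin hr2

/-- Pointwise bound of the second difference. -/
theorem pointwise {F : Finset Edg} {m m' w h : ℤ} (h1 : 1 < m) (h2 : m < m')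
    (h3 : m' + 1 < w) :
    |ind (LRc 0 w 0 h F) - ind (LRc 1 w 0 h F) - ind (LRc 0 (w - 1) 0 h F) +
      ind (LRc 1 (w - 1) 0 h F)| ≤ ind ((AL h 0 m F ∧ LRc m m' 0 h F) ∧ AR h m' w F) := by
  have mono1 : LRc 0 w 0 h F → LRc 1 w 0 h F :=
    fun hh => LRc_sub (by omega) (by omega) le_rfl le_rfl le_rfl hh
  have mono2 : LRc 0 w 0 h F → LRc 0 (w - 1) 0 h F :=
    fun hh => LRc_sub le_rfl (by omega) (by omega) le_rfl le_rfl hh
  have mono3 : LRc 1 w 0 h F → LRc 1 (w - 1) 0 h F :=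
    fun hh => LRc_sub le_rfl (by omega) (by omega) le_rfl le_rfl hh
  have mono4 : LRc 0 (w - 1) 0 h F → LRc 1 (w - 1) 0 h F :=
    fun hh => LRc_sub (by omega) (by omega) le_rfl le_rfl le_rfl hh
  have mono5 : LRc 1 (w - 1) 0 h F → LRc m m' 0 h F :=
    fun hh => LRc_sub (by omega) (by omega) (by omega) le_rfl le_rfl hh
  by_cases ht : LRc 1 (w - 1) 0 h F
  · by_cases hq : LRc 1 w 0 h F
    · by_cases hr : LRc 0 (w - 1) 0 h F
      · by_cases hp : LRc 0 w 0 h F
        · rw [ind_of hp, ind_of hq, ind_of hr, ind_of ht]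
          norm_num
          exact ind_nonneg _
        · -- the second event
          have hA : AL h 0 m F := by
            obtain ⟨x, z, hx, hz, k⟩ := (LRc_iff' (by omega)).mp hq
            have k' : Reach (↑F ∩ ↑(RE (0 + 1) w 0 h)) (0 + 1, x) (w, z) := by simpa using k
            refine left_arm (b := w) (by omega) (by omega) k' ?_
            intro x' hx' hr'
            exact hp ((LRc_iff' (by omega)).mpr ⟨x', z, hx', hz, hr'⟩)
          have hB : AR h m' w F := by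
            obtain ⟨x, z, hx, hz, k⟩ := (LRc_iff' (by omega)).mp hr
            refine right_arm (a := 0) (by omega) (by omega) k ?_
            intro x' hx' hr'
            exact hp ((LRc_iff' (by omega)).mpr ⟨x, x', hx, hx', hr'⟩)
          rw [ind_not_of hp, ind_of hq, ind_of hr, ind_of ht, ind_of ⟨⟨hA, mono5 ht⟩, hB⟩]
          norm_num
      · have hp : ¬ LRc 0 w 0 h F := fun hh => hr (mono2 hh)
        rw [ind_not_of hp, ind_of hq, ind_not_of hr, ind_of ht]
        norm_num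
        exact ind_nonneg _
    · have hp : ¬ LRc 0 w 0 h F := fun hh => hq (mono1 hh)
      by_cases hr : LRc 0 (w - 1) 0 h F
      · rw [ind_not_of hp, ind_not_of hq, ind_of hr, ind_of ht]
        norm_num
        exact ind_nonneg _
      · -- the first event
        obtain ⟨x, z, hx, hz, k⟩ := (LRc_iff' (by omega)).mp ht
        have hA : AL h 0 m F := by
          have k' : Reach (↑F ∩ ↑(RE (0 + 1) (w - 1) 0 h)) (0 + 1, x) (w - 1, z) := by
            simpa using k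
          refine left_arm (b := w - 1) (by omega) (by omega) k' ?_
          intro x' hx' hr'
          exact hr ((LRc_iff' (by omega)).mpr ⟨x', z, hx', hz, hr'⟩)
        have hB : AR h m' w F := by
          refine right_arm (a := 1) (by omega) (by omega) k ?_
          intro x' hx' hr'
          exact hq ((LRc_iff' (by omega)).mpr ⟨x, x', hx, hx', hr'⟩)
        rw [ind_not_of hp, ind_not_of hq, ind_not_of hr, ind_of ht, ind_of ⟨⟨hA, mono5 ht⟩, hB⟩]
        norm_num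
  · have hp : ¬ LRc 0 w 0 h F := fun hh => ht (mono3 (mono1 hh))
    have hq : ¬ LRc 1 w 0 h F := fun hh => ht (mono3 hh)
    have hr : ¬ LRc 0 (w - 1) 0 h F := fun hh => ht (mono4 hh)
    rw [ind_not_of hp, ind_not_of hq, ind_not_of hr, ind_not_of ht]
    norm_num
    exact ind_nonneg _

/-- Second difference of the crossing probability in the width. -/
theorem second {m m' w h : ℤ} (h1 : 1 < m) (h2 : m < m') (h3 : m' + 1 < w) :
    |hh (1/2) w h - 2 * hh (1/2) (w - 1) h + hh (1/2) (w - 2) h| ≤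
      al h m * hh (1/2) (m' - m) h * al h (w - m') := by
  set S : Finset Edg := RE 0 w 0 h with hS
  have sub : ∀ a b : ℤ, 0 ≤ a → b ≤ w → LRE a b 0 h ⊆ S := fun a b ha hb =>
    LRE_subset_RE.trans (RE_sub ha hb)
  have e1 : Pr (fun _ => (1/2 : ℝ)) S (LRc 0 w 0 h) = hh (1/2) w h := by
    rw [pr_LRc (1/2) (sub 0 w le_rfl le_rfl)]; simp
  have e2 : Pr (fun _ => (1/2 : ℝ)) S (LRc 1 w 0 h) = hh (1/2) (w - 1) h := by
    rw [pr_LRc (1/2) (sub 1 w (by omega) le_rfl)]; simp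
  have e3 : Pr (fun _ => (1/2 : ℝ)) S (LRc 0 (w - 1) 0 h) = hh (1/2) (w - 1) h := by
    rw [pr_LRc (1/2) (sub 0 (w - 1) le_rfl (by omega))]; simp
  have e4 : Pr (fun _ => (1/2 : ℝ)) S (LRc 1 (w - 1) 0 h) = hh (1/2) (w - 2) h := by
    rw [pr_LRc (1/2) (sub 1 (w - 1) (by omega) (by omega)), sub_zero,
      show w - 1 - 1 = w - 2 by ring]
  have e5 : hh (1/2) w h - 2 * hh (1/2) (w - 1) h + hh (1/2) (w - 2) h =
      Ex (fun _ => (1/2 : ℝ)) S (fun F => ind (LRc 0 w 0 h F) - ind (LRc 1 w 0 h F) -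
        ind (LRc 0 (w - 1) 0 h F) + ind (LRc 1 (w - 1) 0 h F)) := by
    rw [Ex_add, Ex_sub, Ex_sub]
    unfold Pr at e1 e2 e3 e4
    rw [e1, e2, e3, e4]
    ring
  have e6 : |hh (1/2) w h - 2 * hh (1/2) (w - 1) h + hh (1/2) (w - 2) h| ≤
      Pr (fun _ => (1/2 : ℝ)) S (fun F => (AL h 0 m F ∧ LRc m m' 0 h F) ∧ AR h m' w F) := by
    rw [e5, abs_le]
    constructor
    · have := Ex_mono ok2 (S := S) (f := fun F => -1 * ind ((AL h 0 m F ∧ LRc m m' 0 h F) ∧ AR h m' w F))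
        (g := fun F => ind (LRc 0 w 0 h F) - ind (LRc 1 w 0 h F) -
        ind (LRc 0 (w - 1) 0 h F) + ind (LRc 1 (w - 1) 0 h F))
        (fun F _ => by
          have := (abs_le.mp (pointwise (F := F) (h := h) h1 h2 h3)).1
          linarith)
      rw [Ex_mul_left] at this
      unfold Pr
      linarith
    · exact Ex_mono ok2 (fun F _ => (abs_le.mp (pointwise (F := F) (h := h) h1 h2 h3)).2)
  refine e6.trans (le_of_eq ?_)
  have d1 : Disjoint (RE 0 m 0 h) (LRE m m' 0 h) := by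
    rw [Finset.disjoint_left]
    rintro ⟨x, y, _ | _⟩ k1 k2
    · simp only [mem_RE_false, mem_LRE_false] at k1 k2; omega
    · simp only [mem_RE_true, mem_LRE_true] at k1 k2; omega
  have d2 : Disjoint (RE 0 m 0 h ∪ LRE m m' 0 h) (RE m' w 0 h) := by
    rw [Finset.disjoint_left]
    rintro ⟨x, y, _ | _⟩ k1 k2
    · simp only [Finset.mem_union, mem_RE_false, mem_LRE_false] at k1 k2; omega
    · simp only [Finset.mem_union, mem_RE_true, mem_LRE_true] at k1 k2; omega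
  have s1 : RE 0 m 0 h ⊆ S := RE_sub le_rfl (by omega)
  have s2 : LRE m m' 0 h ⊆ S := sub m m' (by omega) (by omega)
  have s3 : RE m' w 0 h ⊆ S := RE_sub (by omega) le_rfl
  have s4 : RE 0 m 0 h ∪ LRE m m' 0 h ⊆ S := Finset.union_subset s1 s2
  have i1 := Pr_indep (p := fun _ => (1/2 : ℝ)) (A := fun F => AL h 0 m F ∧ LRc m m' 0 h F)
    (B := AR h m' w) s4 s3 d2
    (fun F _ => and_congr (AL_local (h := h) (a := 0) (m := m) (F := F)
        (S := RE 0 m 0 h ∪ LRE m m' 0 h) Finset.subset_union_left)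
      (LRc_local (F := F) (S := RE 0 m 0 h ∪ LRE m m' 0 h) Finset.subset_union_right))
    (fun F _ => AR_local (h := h) (m := m') (w := w) (F := F) (S := RE m' w 0 h)
      (Finset.Subset.refl _))
  have i2 := Pr_indep (p := fun _ => (1/2 : ℝ)) (A := AL h 0 m) (B := LRc m m' 0 h) s1 s2 d1
      (fun F _ => AL_local (h := h) (a := 0) (m := m) (F := F) (S := RE 0 m 0 h)
        (Finset.Subset.refl _))
      (fun F _ => LRc_local (F := F) (S := LRE m m' 0 h) (Finset.Subset.refl _))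
  have i3 := pr_AL (h := h) (a := 0) (m := m) s1
  have i4 := pr_AR (h := h) (m := m') (w := w) s3
  have i5 := pr_LRc (1/2) s2
  rw [i1, i2, i3, i4, i5, sub_zero, sub_zero]

end Pool.Agent.Y197.SD
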